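import Pool.Agent.H20.AL.Defs

/-!
# SEC: area of a circular sector and of a right triangle

* `sector`: polar coordinates (`Complex.lintegral_comp_polarCoord_symm`): for `q = ρ (cos φ + i sin φ)`, `ρ > 0`, `-π < φ < π`:
  `0 < q.im ∧ ‖q‖ cos t < q.re` iff `0 < φ < t` (cos is decreasing on `[0,π]`), `‖q‖ < r` iff `ρ < r`.  So the area is
  the integral of `ρ` over `(0,r) × (0,t)`, `= r^2/2 * t`.
* `rtri`: `‖q‖ cos t < q.re` with `q.im > 0` iff `q.im < q.re * tan t` and `q.re > 0`; the area is `∫_0^h a tan t da`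
  (`Complex.volume_preserving_equiv_real_prod`, `Measure.prod_apply` or `volume_regionBetween_eq_integral`).
* `sin_conc`: concavity of `sin` on `[0, π]` (`strictConcaveOn_sin_Icc`) : `sin (2t) ≥ (sin (π/3)/(π/3)) * (2t)` for `0 ≤ 2 t ≤ π/3`.
-/

set_option autoImplicit false

open MeasureTheory Set Real

noncomputable section

namespace Pool.Agent.H20.AL

private theorem SEC_int (r : ℝ) (hr : 0 ≤ r) :
    ∫⁻ x in Ioo (0:ℝ) r, ENNReal.ofReal x = ENNReal.ofReal (r ^ 2 / 2) := by
  rw [← ofReal_integral_eq_lintegral_ofReal]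
  · rw [← integral_Ioc_eq_integral_Ioo, ← intervalIntegral.integral_of_le hr]
    congr 1
    simp
  · exact (continuous_id.integrableOn_Icc (a := 0) (b := r)).mono_set Ioo_subset_Icc_self
  · rw [Filter.EventuallyLE, ae_restrict_iff' measurableSet_Ioo]
    exact Filter.Eventually.of_forall fun x hx => hx.1.le

theorem sector {r t : ℝ} (hr : 0 ≤ r) (ht : 0 < t) (ht' : t < π) :
    volume {q : ℂ | ‖q‖ < r ∧ 0 < q.im ∧ ‖q‖ * Real.cos t < q.re} = ENNReal.ofReal (r ^ 2 * t / 2) := by
  set S : Set ℂ := {q : ℂ | ‖q‖ < r ∧ 0 < q.im ∧ ‖q‖ * Real.cos t < q.re} with hS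
  have hSm : MeasurableSet S := by
    apply MeasurableSet.inter (measurableSet_lt measurable_norm measurable_const)
    apply MeasurableSet.inter (measurableSet_lt measurable_const Complex.measurable_im)
    exact measurableSet_lt (measurable_norm.mul_const _) Complex.measurable_re
  have h1 : volume S = ∫⁻ p, S.indicator (fun _ => (1 : ENNReal)) p := by
    rw [lintegral_indicator hSm]
    simp
  rw [h1, ← Complex.lintegral_comp_polarCoord_symm]
  have hmem : ∀ p ∈ polarCoord.target, Complex.polarCoord.symm p ∈ S ↔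
      p ∈ Ioo (0:ℝ) r ×ˢ Ioo (0:ℝ) t := by
    rintro ⟨ρ, φ⟩ hp
    rw [polarCoord_target] at hp
    obtain ⟨hρ, hφ⟩ := hp
    have hρ' : 0 < ρ := hρ
    have hφ' : -π < φ ∧ φ < π := hφ
    rw [Complex.polarCoord_symm_apply]
    have e1 : ‖((ρ:ℝ):ℂ) * ((Real.cos φ : ℝ) + (Real.sin φ : ℝ) * Complex.I)‖ = ρ := by
      rw [norm_mul, Complex.norm_real, Real.norm_of_nonneg hρ'.le, Complex.ofReal_cos,
        Complex.ofReal_sin, Complex.norm_cos_add_sin_mul_I, mul_one]
    have e2 : (((ρ:ℝ):ℂ) * ((Real.cos φ : ℝ) + (Real.sin φ : ℝ) * Complex.I)).im = ρ * Real.sin φ := by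
      simp only [Complex.mul_im, Complex.add_im, Complex.add_re, Complex.mul_re, Complex.ofReal_re,
        Complex.ofReal_im, Complex.I_re, Complex.I_im]
      ring
    have e3 : (((ρ:ℝ):ℂ) * ((Real.cos φ : ℝ) + (Real.sin φ : ℝ) * Complex.I)).re = ρ * Real.cos φ := by
      simp only [Complex.mul_im, Complex.add_im, Complex.add_re, Complex.mul_re, Complex.ofReal_re,
        Complex.ofReal_im, Complex.I_re, Complex.I_im]
      ring
    show (_ ∧ _ ∧ _) ↔ (_ ∧ _)
    simp only [e1, e2, e3]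
    constructor
    · rintro ⟨h1, h2, h3⟩
      have h4 : 0 < Real.sin φ := (mul_pos_iff_of_pos_left hρ').mp h2
      have h5 : 0 < φ := by
        by_contra hcon
        have := Real.sin_nonpos_of_nonpos_of_neg_pi_le (not_lt.mp hcon) hφ'.1.le
        linarith
      have h6 : Real.cos t < Real.cos φ := lt_of_mul_lt_mul_left h3 hρ'.le
      have h7 : φ < t := by
        by_contra hcon
        have := Real.cos_le_cos_of_nonneg_of_le_pi ht.le hφ'.2.le (not_lt.mp hcon)
        linarith
      exact ⟨⟨hρ', h1⟩, h5, h7⟩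
    · rintro ⟨⟨-, h1⟩, h2, h3⟩
      refine ⟨h1, mul_pos hρ' (Real.sin_pos_of_pos_of_lt_pi h2 hφ'.2), ?_⟩
      exact mul_lt_mul_of_pos_left (Real.cos_lt_cos_of_nonneg_of_le_pi h2.le ht'.le h3) hρ'
  have hsub : Ioo (0:ℝ) r ×ˢ Ioo (0:ℝ) t ⊆ polarCoord.target := by
    rintro ⟨ρ, φ⟩ ⟨h1, h2⟩
    rw [polarCoord_target]
    have h2' : 0 < φ ∧ φ < t := h2
    exact ⟨h1.1, by show -π < φ; linarith [Real.pi_pos], by show φ < π; linarith⟩
  have hm1 : MeasurableSet (polarCoord.target) := polarCoord.open_target.measurableSet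
  have hm2 : MeasurableSet (Ioo (0:ℝ) r ×ˢ Ioo (0:ℝ) t) := measurableSet_Ioo.prod measurableSet_Ioo
  calc ∫⁻ p in polarCoord.target, ENNReal.ofReal p.1 •
        S.indicator (fun _ => (1 : ENNReal)) (Complex.polarCoord.symm p)
      = ∫⁻ p in polarCoord.target, (Ioo (0:ℝ) r ×ˢ Ioo (0:ℝ) t).indicator
          (fun p => ENNReal.ofReal p.1) p := by
        refine setLIntegral_congr_fun hm1 fun p hp => ?_
        by_cases h : p ∈ Ioo (0:ℝ) r ×ˢ Ioo (0:ℝ) t
        · rw [indicator_of_mem ((hmem p hp).mpr h), indicator_of_mem h]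
          simp
        · rw [indicator_of_notMem (fun h' => h ((hmem p hp).mp h')), indicator_of_notMem h]
          simp
    _ = ∫⁻ p in Ioo (0:ℝ) r ×ˢ Ioo (0:ℝ) t, ENNReal.ofReal p.1 := by
        rw [lintegral_indicator hm2, Measure.restrict_restrict hm2, inter_eq_left.mpr hsub]
    _ = (∫⁻ x in Ioo (0:ℝ) r, ENNReal.ofReal x) * ∫⁻ y in Ioo (0:ℝ) t, 1 := by
        rw [← lintegral_prod_mul (by fun_prop) (by fun_prop), Measure.prod_restrict]
        simp only [mul_one]
        rfl
    _ = ENNReal.ofReal (r ^ 2 * t / 2) := by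
        rw [SEC_int r hr, setLIntegral_one, Real.volume_Ioo, sub_zero,
          ← ENNReal.ofReal_mul (by positivity)]
        congr 1
        ring

theorem rtri {h t : ℝ} (hh : 0 < h) (ht : 0 < t) (ht' : t < π / 2) :
    volume {q : ℂ | 0 < q.im ∧ ‖q‖ * Real.cos t < q.re ∧ q.re < h} = ENNReal.ofReal (h ^ 2 * Real.tan t / 2) := by
  have hcos : 0 < Real.cos t := Real.cos_pos_of_mem_Ioo ⟨by linarith, ht'⟩
  have hsin : 0 < Real.sin t := Real.sin_pos_of_pos_of_lt_pi ht (by linarith [Real.pi_pos])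
  have htan : 0 < Real.tan t := Real.tan_pos_of_pos_of_lt_pi_div_two ht ht'
  have hcs := Real.sin_sq_add_cos_sq t
  have hset : {q : ℂ | 0 < q.im ∧ ‖q‖ * Real.cos t < q.re ∧ q.re < h} =
      Complex.measurableEquivRealProd ⁻¹'
        (regionBetween (fun _ => (0:ℝ)) (fun a => a * Real.tan t) (Ioo 0 h)) := by
    ext q
    rw [mem_preimage, Complex.measurableEquivRealProd_apply]
    show (0 < q.im ∧ ‖q‖ * Real.cos t < q.re ∧ q.re < h) ↔
      (0 < q.re ∧ q.re < h) ∧ (0 < q.im ∧ q.im < q.re * Real.tan t)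
    have hn := nsq q
    have htc : Real.tan t * Real.cos t = Real.sin t := Real.tan_mul_cos hcos.ne'
    constructor
    · rintro ⟨h1, h2, h3⟩
      have h4 : 0 < q.re := lt_of_le_of_lt (by positivity) h2
      refine ⟨⟨h4, h3⟩, h1, ?_⟩
      have h5 : (‖q‖ * Real.cos t) ^ 2 < q.re ^ 2 := by
        apply pow_lt_pow_left₀ h2 (by positivity) (by norm_num)
      have h6 : (q.im * Real.cos t) ^ 2 < (q.re * Real.sin t) ^ 2 := by
        rw [mul_pow, hn] at h5
        nlinarith
      have h7 : q.im * Real.cos t < q.re * Real.sin t :=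
        lt_of_pow_lt_pow_left₀ 2 (by positivity) h6
      rw [← htc, ← mul_assoc] at h7
      exact lt_of_mul_lt_mul_right h7 hcos.le
    · rintro ⟨⟨h1, h2⟩, h3, h4⟩
      refine ⟨h3, ?_, h2⟩
      have h5 : q.im * Real.cos t < q.re * Real.sin t := by
        rw [← htc, ← mul_assoc]
        exact mul_lt_mul_of_pos_right h4 hcos
      have h6 : (q.im * Real.cos t) ^ 2 < (q.re * Real.sin t) ^ 2 :=
        pow_lt_pow_left₀ h5 (by positivity) (by norm_num)
      have h7 : (‖q‖ * Real.cos t) ^ 2 < q.re ^ 2 := by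
        rw [mul_pow, hn]
        nlinarith
      exact lt_of_pow_lt_pow_left₀ 2 h1.le h7
  rw [hset, Complex.volume_preserving_equiv_real_prod.measure_preimage_equiv, Measure.volume_eq_prod,
    volume_regionBetween_eq_integral]
  · rw [← integral_Ioc_eq_integral_Ioo, ← intervalIntegral.integral_of_le hh.le]
    congr 1
    simp
    ring
  · exact integrableOn_const (by simp)
  · exact (Continuous.integrableOn_Icc (a := 0) (b := h) (by fun_prop)).mono_set Ioo_subset_Icc_self
  · exact measurableSet_Ioo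
  · intro x hx
    have := hx.1
    positivity

theorem sin_conc {t : ℝ} (h0 : 0 ≤ t) (h1 : t ≤ π / 6) : kap * t ≤ Real.sin t * Real.cos t := by
  have hpi := Real.pi_pos
  have hx : (0:ℝ) ∈ Icc 0 π := ⟨le_refl _, hpi.le⟩
  have hy : π / 3 ∈ Icc 0 π := ⟨by positivity, by linarith⟩
  have ha : 0 ≤ 1 - 6 * t / π := by rw [sub_nonneg, div_le_one hpi]; linarith
  have hb : 0 ≤ 6 * t / π := by positivity
  have hab : 1 - 6 * t / π + 6 * t / π = 1 := by ring
  have h2 := (StrictConcaveOn.concaveOn strictConcaveOn_sin_Icc).2 hx hy ha hb hab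
  simp only [smul_eq_mul, mul_zero, Real.sin_zero, zero_add, Real.sin_pi_div_three] at h2
  have h3 : 6 * t / π * (π / 3) = 2 * t := by field_simp; ring
  rw [h3, Real.sin_two_mul] at h2
  have h4 : kap * t = 6 * t / π * (√3 / 2) / 2 := by
    unfold kap
    field_simp
    ring
  rw [h4]
  linarith

end Pool.Agent.H20.AL
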