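import Pool.Agent.H20.AL.CEL
import Pool.Agent.H20.AL.SEC

/-!
# ANG: the disc area of a corner is one sixth of its angle
-/

set_option autoImplicit false

open MeasureTheory Set Real

noncomputable section

namespace Pool.Agent.H20.AL

theorem ANG_iff {q : ℂ} {θ : ℝ} (h0 : 0 < θ) (h1 : θ < π) (hq : 0 < q.im) :
    0 < q.re * Real.sin θ - q.im * Real.cos θ ↔ ‖q‖ * Real.cos θ < q.re := by
  have hq0 : q ≠ 0 := by rintro rfl; simp at hq
  have hn : 0 < ‖q‖ := norm_pos_iff.2 hq0
  set φ := Complex.arg q with hφ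
  have hre : q.re = ‖q‖ * Real.cos φ := (Complex.norm_mul_cos_arg q).symm
  have him : q.im = ‖q‖ * Real.sin φ := (Complex.norm_mul_sin_arg q).symm
  have hφ0 : 0 < φ := by
    have h2 : 0 ≤ φ := Complex.arg_nonneg_iff.2 hq.le
    rcases h2.eq_or_lt with h | h
    · rw [him, ← h, Real.sin_zero, mul_zero] at hq
      exact absurd hq (lt_irrefl _)
    · exact h
  have hφ1 : φ < π := by
    rcases (Complex.arg_le_pi q).eq_or_lt with h | h
    · rw [him, hφ, h, Real.sin_pi, mul_zero] at hq
      exact absurd hq (lt_irrefl _)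
    · exact h
  have h2 : q.re * Real.sin θ - q.im * Real.cos θ = ‖q‖ * Real.sin (θ - φ) := by
    rw [hre, him, Real.sin_sub]; ring
  rw [h2, mul_pos_iff_of_pos_left hn]
  have h3 : ‖q‖ * Real.cos θ < q.re ↔ Real.cos θ < Real.cos φ := by
    constructor
    · intro h
      rw [hre] at h
      exact lt_of_mul_lt_mul_left h hn.le
    · intro h
      rw [hre]
      exact mul_lt_mul_of_pos_left h hn
  rw [h3]
  constructor
  · intro h
    have : φ < θ := by
      by_contra hcon
      push Not at hcon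
      have := Real.sin_nonpos_of_nonpos_of_neg_pi_le (x := θ - φ) (by linarith) (by linarith)
      linarith
    exact Real.cos_lt_cos_of_nonneg_of_le_pi hφ0.le h1.le this
  · intro h
    have : φ < θ := by
      by_contra hcon
      push Not at hcon
      have := Real.cos_le_cos_of_nonneg_of_le_pi h0.le hφ1.le hcon
      linarith
    exact Real.sin_pos_of_pos_of_lt_pi (by linarith) (by linarith)

/-- coordinates in a rotated frame -/
theorem ANG_T (x u : ℂ) (hu : ‖u‖ = 1) : ∃ T : ℂ → ℂ, MeasurePreserving T volume volume ∧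
    ∀ q, dt (T q - x) u = q.re ∧ cr u (T q - x) = q.im ∧ ‖T q - x‖ = ‖q‖ := by
  have hu2 : u.re ^ 2 + u.im ^ 2 = 1 := by rw [← nsq, hu]; norm_num
  set c : Circle := ⟨u, by simp [Submonoid.unitSphere, hu]⟩ with hc
  have hrot : ∀ q : ℂ, rotation c q = u * q := fun q => by
    rw [rotation_apply]
  have hadd : MeasurePreserving (fun q : ℂ => x + q) volume volume := measurePreserving_add_left _ x
  have hrotm : MeasurePreserving (rotation c) volume volume :=
    LinearIsometryEquiv.measurePreserving (rotation c)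
  refine ⟨(fun q : ℂ => x + q) ∘ rotation c, hadd.comp hrotm, fun q => ?_⟩
  simp only [Function.comp, hrot, add_sub_cancel_left]
  refine ⟨?_, ?_, ?_⟩
  · unfold dt
    simp only [Complex.mul_re, Complex.mul_im]
    linear_combination q.re * hu2
  · unfold cr
    simp only [Complex.mul_re, Complex.mul_im]
    linear_combination q.im * hu2
  · rw [norm_mul, hu, one_mul]

/-- the disc area of a corner -/
theorem ang {a x y : ℂ} (h : 0 < cr (x - a) (y - a)) :
    volume.real (Cone a x y ∩ D a) =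
      Real.arccos (dt (x - a) (y - a) / (‖x - a‖ * ‖y - a‖)) / 6 := by
  set l : ℝ := ‖x - a‖ with hl
  set m : ℝ := ‖y - a‖ with hm
  have hl0 : 0 < l := by
    rcases (norm_nonneg (x - a)).eq_or_lt with h1 | h1
    · have := norm_eq_zero.1 h1.symm
      rw [this] at h; simp [cr] at h
    · exact h1
  have hm0 : 0 < m := by
    rcases (norm_nonneg (y - a)).eq_or_lt with h1 | h1
    · have := norm_eq_zero.1 h1.symm
      rw [this] at h; simp [cr] at h
    · exact h1
  have hlc : (l : ℂ) ≠ 0 := Complex.ofReal_ne_zero.2 hl0.ne'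
  set u : ℂ := (x - a) / l with hu
  have hun : ‖u‖ = 1 := by
    rw [hu, norm_div, Complex.norm_real, Real.norm_of_nonneg hl0.le, ← hl, div_self hl0.ne']
  have hxa : x - a = (l : ℂ) * u := by rw [hu]; field_simp
  have hu2 : u.re ^ 2 + u.im ^ 2 = 1 := by rw [← nsq, hun]; norm_num
  set c : ℝ := dt (x - a) (y - a) / (l * m) with hc
  have hlag := lag (x - a) (y - a)
  rw [← hl, ← hm] at hlag
  have hc2 : c ^ 2 < 1 := by
    rw [hc, div_pow, div_lt_one (by positivity), mul_pow]
    nlinarith [pow_pos h 2]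
  have hc1 : -1 < c := by nlinarith
  have hc1' : c < 1 := by nlinarith
  set θ := Real.arccos c with hθ
  have hcos : Real.cos θ = c := Real.cos_arccos hc1.le hc1'.le
  have hθ0 : 0 < θ := Real.arccos_pos.2 hc1'
  have hθ1 : θ < π := by
    rcases (Real.arccos_le_pi c).eq_or_lt with h1 | h1
    · rw [← hθ] at h1
      rw [h1, Real.cos_pi] at hcos; linarith
    · exact h1
  have hsin0 : 0 < Real.sin θ := Real.sin_pos_of_pos_of_lt_pi hθ0 hθ1
  have hdtu : dt u (y - a) = m * Real.cos θ := by
    have h1 : dt (x - a) (y - a) = l * dt u (y - a) := by rw [hxa]; simp [dt]; ring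
    rw [hcos, hc, h1]; field_simp
  have hcru0 : 0 < cr u (y - a) := by
    have h1 : cr (x - a) (y - a) = l * cr u (y - a) := by rw [hxa]; simp [cr]; ring
    rw [h1] at h
    exact (mul_pos_iff_of_pos_left hl0).1 h
  have hcru : cr u (y - a) = m * Real.sin θ := by
    have h1 := lag u (y - a)
    rw [hun, hdtu, ← hm] at h1
    have h2 : cr u (y - a) ^ 2 = (m * Real.sin θ) ^ 2 := by
      have := Real.sin_sq_add_cos_sq θ
      nlinarith
    have h3 : 0 < m * Real.sin θ := by positivity
    nlinarith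
  obtain ⟨T, hT, hTq⟩ := ANG_T a u hun
  have hset : T ⁻¹' (Cone a x y ∩ D a) = {q : ℂ | ‖q‖ < 1 / √3 ∧ 0 < q.im ∧ ‖q‖ * Real.cos θ < q.re} := by
    ext q
    obtain ⟨e1, e2, e3⟩ := hTq q
    have h1 : cr (x - a) (T q - a) = l * q.im := by
      rw [← e2, hxa]; simp [cr]; ring
    -- cross product of `T q - a` and `y - a` in the frame
    have h2 : cr (T q - a) (y - a) = m * (q.re * Real.sin θ - q.im * Real.cos θ) := by
      have h3 : cr (T q - a) (y - a) = dt (T q - a) u * cr u (y - a) - cr u (T q - a) * dt u (y - a) := by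
        have : cr (T q - a) (y - a) = (u.re ^ 2 + u.im ^ 2) * cr (T q - a) (y - a) := by rw [hu2, one_mul]
        rw [this]; unfold cr dt; ring
      rw [h3, e1, e2, hdtu, hcru]; ring
    show (0 < cr (x - a) (T q - a) ∧ 0 < cr (T q - a) (y - a)) ∧ T q ∈ D a ↔ _
    rw [mem_D, e3, h1, h2, mul_pos_iff_of_pos_left hl0, mul_pos_iff_of_pos_left hm0]
    constructor
    · rintro ⟨⟨i1, i2⟩, i3⟩
      exact ⟨i3, i1, (ANG_iff hθ0 hθ1 i1).1 i2⟩
    · rintro ⟨i3, i1, i2⟩
      exact ⟨⟨i1, (ANG_iff hθ0 hθ1 i1).2 i2⟩, i3⟩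
  have hmeas : MeasurableSet (Cone a x y ∩ D a) := ((isOpen_Cone _ _ _).inter (isOpen_D _)).measurableSet
  have hv : volume (Cone a x y ∩ D a) = ENNReal.ofReal ((1 / √3) ^ 2 * θ / 2) := by
    rw [← hT.measure_preimage hmeas.nullMeasurableSet, hset]
    exact sector (by positivity) hθ0 hθ1
  rw [measureReal_def, hv, ENNReal.toReal_ofReal (by positivity)]
  have : (1 / √3) ^ 2 = (1:ℝ) / 3 := by
    rw [div_pow, Real.sq_sqrt (by norm_num)]; norm_num
  rw [this]; ring

end Pool.Agent.H20.AL
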