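import Pool.Agent.H20.AL.Defs

/-!
# HXA: the lattice hexagons

* `lam_near`: every `p` has a site at distance `< 1` (write `p = a + b ω`, `ω = 1/2 + (√3/2) i`, round `a, b`; with `|u|,|v| ≤ 1/2`,
  `|u + v ω|^2 = u^2 + u v + v^2 ≤ 3/4`).
* `lam_sep`: different sites have distance `≥ 1` (`m^2 + m n + n^2 ≥ 1` for integers `(m,n) ≠ 0`).
* `hex_cover`: every `p` is in some `Hex σ`, `σ ∈ Lam` (nearest site; finitely many sites in a ball), and then `dist p σ < 1`.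
* `hex_vol`: translate to `σ = 0` (`Lam` is a group).  `Hex 0` is contained in `{|re| ≤ 1/2, |re/2 ± (√3/2) im| ≤ 1/2}` (the six neighbours
  `±1, ±ω, ±(ω-1)`), that is `|re| ≤ 1/2` and `|im| ≤ (1 - |re|)/√3`; slices: `∫_{-1/2}^{1/2} 2(1-|a|)/√3 da = √3/2`.
-/

set_option autoImplicit false

open MeasureTheory Set Real

noncomputable section

namespace Pool.Agent.H20.AL

/-- the lattice point with coordinates `m, n` -/
def HXA_pt (m n : ℤ) : ℂ :=
  (m : ℂ) + (n : ℂ) * ((1/2 : ℂ) + ((Real.sqrt 3 / 2 : ℝ) : ℂ) * Complex.I)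

theorem HXA_pt_re (m n : ℤ) : (HXA_pt m n).re = m + n / 2 := by
  simp [HXA_pt]
  ring

theorem HXA_pt_im (m n : ℤ) : (HXA_pt m n).im = n * (√3 / 2) := by
  simp [HXA_pt]

theorem HXA_mem (m n : ℤ) : HXA_pt m n ∈ Lam := ⟨m, n, rfl⟩

theorem HXA_s3 : √3 ^ 2 = 3 := Real.sq_sqrt (by norm_num)

theorem HXA_dist (p q : ℂ) : dist p q ^ 2 = (p.re - q.re) ^ 2 + (p.im - q.im) ^ 2 := by
  rw [dist_eq_norm, nsq, Complex.sub_re, Complex.sub_im]

theorem lam_near (p : ℂ) : ∃ σ ∈ Lam, dist p σ < 1 := by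
  have h3 := HXA_s3
  have hs : 0 < √3 := by positivity
  set b : ℝ := 2 * p.im / √3 with hb
  set a : ℝ := p.re - b / 2 with ha
  refine ⟨HXA_pt (round a) (round b), HXA_mem _ _, ?_⟩
  have h1 := abs_le.1 (abs_sub_round a)
  have h2 := abs_le.1 (abs_sub_round b)
  have him : p.im = b * (√3 / 2) := by
    rw [hb]; field_simp
  have hre : p.re = a + b / 2 := by rw [ha]; ring
  have hd : dist p (HXA_pt (round a) (round b)) ^ 2 < 1 := by
    rw [HXA_dist, HXA_pt_re, HXA_pt_im, him, hre]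
    set u := a - round a with hu
    set v := b - round b with hv
    have e1 : (a + b / 2 - (round a + round b / 2)) ^ 2 + (b * (√3 / 2) - round b * (√3 / 2)) ^ 2
        = (u + v / 2) ^ 2 + v ^ 2 * (√3 ^ 2 / 4) := by
      rw [hu, hv]; ring
    rw [e1, h3]
    nlinarith [mul_nonneg (sub_nonneg.2 h1.1) (sub_nonneg.2 h2.1), mul_nonneg (sub_nonneg.2 h1.2) (sub_nonneg.2 h2.2), mul_nonneg (sub_nonneg.2 h1.1) (sub_nonneg.2 h1.2), mul_nonneg (sub_nonneg.2 h2.1) (sub_nonneg.2 h2.2), mul_nonneg (sub_nonneg.2 h1.1) (sub_nonneg.2 h2.2), mul_nonneg (sub_nonneg.2 h1.2) (sub_nonneg.2 h2.1)]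
  exact lt_of_pow_lt_pow_left₀ 2 (by norm_num) (by rw [one_pow]; exact hd)

theorem HXA_int (m n : ℤ) (h : m ≠ 0 ∨ n ≠ 0) : (1 : ℤ) ≤ m ^ 2 + m * n + n ^ 2 := by
  rcases h with h | h
  · have h1 : 1 ≤ m ^ 2 := by
      have := sq_nonneg m
      rcases lt_or_gt_of_ne h with h2 | h2 <;> nlinarith
    nlinarith [sq_nonneg (m + 2 * n)]
  · have h1 : 1 ≤ n ^ 2 := by
      rcases lt_or_gt_of_ne h with h2 | h2 <;> nlinarith
    nlinarith [sq_nonneg (2 * m + n)]

theorem lam_sep : Sep Lam := by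
  rintro _ ⟨m, n, rfl⟩ _ ⟨m', n', rfl⟩ hne
  have h3 := HXA_s3
  have hne' : m - m' ≠ 0 ∨ n - n' ≠ 0 := by
    by_contra hcon
    push Not at hcon
    apply hne
    have e1 : m = m' := by linarith [hcon.1]
    have e2 : n = n' := by linarith [hcon.2]
    rw [e1, e2]
  have h1 := HXA_int (m - m') (n - n') hne'
  have h2 : (1 : ℝ) ≤ ((m : ℝ) - m') ^ 2 + ((m : ℝ) - m') * ((n : ℝ) - n') + ((n : ℝ) - n') ^ 2 := by
    exact_mod_cast h1
  have h4 : (1 : ℝ) ^ 2 ≤ dist (HXA_pt m n) (HXA_pt m' n') ^ 2 := by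
    rw [HXA_dist, HXA_pt_re, HXA_pt_im, HXA_pt_re, HXA_pt_im]
    have e1 : ((m : ℝ) + n / 2 - (m' + n' / 2)) ^ 2 + (n * (√3 / 2) - n' * (√3 / 2)) ^ 2
        = (((m : ℝ) - m') + (n - n') / 2) ^ 2 + ((n : ℝ) - n') ^ 2 * (√3 ^ 2 / 4) := by ring
    rw [e1, h3]
    nlinarith
  exact le_of_sq_le_sq h4 dist_nonneg

theorem HXA_range : Lam = Set.range (fun z : ℤ × ℤ => HXA_pt z.1 z.2) := by
  ext z
  constructor
  · rintro ⟨m, n, rfl⟩
    exact ⟨(m, n), rfl⟩
  · rintro ⟨⟨m, n⟩, rfl⟩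
    exact ⟨m, n, rfl⟩

theorem lam_countable : Lam.Countable := by
  rw [HXA_range]
  exact Set.countable_range _

theorem HXA_fin (p : ℂ) : {z : ℤ × ℤ | dist p (HXA_pt z.1 z.2) < 1}.Finite := by
  obtain ⟨N, hN⟩ := exists_nat_gt (4 + 4 * |p.re| + 4 * |p.im|)
  refine Set.Finite.subset ((Set.finite_Icc (-(N : ℤ)) N).prod (Set.finite_Icc (-(N : ℤ)) N)) ?_
  rintro ⟨m, n⟩ h
  have h3 := HXA_s3
  have hs0 : 0 < √3 := by positivity
  have hs1 : 1 ≤ √3 := by nlinarith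
  have h : dist p (HXA_pt m n) < 1 := h
  have h1 : dist p (HXA_pt m n) ^ 2 < 1 := by
    have := dist_nonneg (x := p) (y := HXA_pt m n)
    nlinarith
  rw [HXA_dist, HXA_pt_re, HXA_pt_im] at h1
  have h4 : |p.im - n * (√3 / 2)| < 1 := by
    rw [← sq_lt_one_iff_abs_lt_one]
    nlinarith [sq_nonneg (p.re - (m + n / 2))]
  have h5 : |p.re - (m + n / 2)| < 1 := by
    rw [← sq_lt_one_iff_abs_lt_one]
    nlinarith [sq_nonneg (p.im - n * (√3 / 2))]
  have h6 : |(n : ℝ)| ≤ 2 * (1 + |p.im|) := by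
    have h7 : |(n : ℝ) * (√3 / 2)| ≤ 1 + |p.im| := by
      have := abs_sub_abs_le_abs_sub ((n : ℝ) * (√3 / 2)) p.im
      rw [abs_sub_comm] at this
      linarith
    rw [abs_mul, abs_of_pos (by positivity : (0 : ℝ) < √3 / 2)] at h7
    nlinarith [abs_nonneg (n : ℝ)]
  have h8 : |(m : ℝ)| ≤ 1 + |p.re| + |(n : ℝ)| := by
    have e1 : (m : ℝ) = p.re - n / 2 - (p.re - (m + n / 2)) := by ring
    have e2 : |(m : ℝ)| ≤ |p.re - n / 2| + |p.re - (m + n / 2)| := by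
      conv_lhs => rw [e1]
      exact abs_sub _ _
    have e3 : |p.re - n / 2| ≤ |p.re| + |(n : ℝ) / 2| := abs_sub _ _
    rw [abs_div, abs_of_pos (by norm_num : (0 : ℝ) < 2)] at e3
    have := abs_nonneg (n : ℝ)
    linarith
  have hnn : |(n : ℝ)| < N := by
    have := abs_nonneg p.re
    have := abs_nonneg p.im
    linarith
  have hmm : |(m : ℝ)| < N := by
    have := abs_nonneg p.re
    have := abs_nonneg p.im
    linarith
  have hnn' := abs_lt.1 hnn
  have hmm' := abs_lt.1 hmm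
  simp only [Set.mem_prod, Set.mem_Icc]
  refine ⟨⟨?_, ?_⟩, ⟨?_, ?_⟩⟩
  · exact_mod_cast hmm'.1.le
  · exact_mod_cast hmm'.2.le
  · exact_mod_cast hnn'.1.le
  · exact_mod_cast hnn'.2.le

theorem hex_cover (p : ℂ) : ∃ σ ∈ Lam, p ∈ Hex σ ∧ dist p σ < 1 := by
  obtain ⟨σ0, ⟨m0, n0, rfl⟩, h0⟩ := lam_near p
  obtain ⟨⟨m, n⟩, hz, hmin⟩ := Set.exists_min_image {z : ℤ × ℤ | dist p (HXA_pt z.1 z.2) < 1}
    (fun z => dist p (HXA_pt z.1 z.2)) (HXA_fin p) ⟨(m0, n0), h0⟩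
  refine ⟨HXA_pt m n, HXA_mem m n, ?_, hz⟩
  rintro _ ⟨m', n', rfl⟩
  by_cases h : dist p (HXA_pt m' n') < 1
  · exact hmin (m', n') h
  · exact le_trans (le_of_lt hz) (not_lt.1 h)

theorem hex_closed (σ : ℂ) : IsClosed (Hex σ) := by
  have h : Hex σ = ⋂ τ ∈ Lam, {p : ℂ | dist p σ ≤ dist p τ} := by
    ext p
    simp only [Hex, mem_ofPred_eq, mem_iInter]
  rw [h]
  refine isClosed_biInter fun τ _ => ?_
  exact isClosed_le (continuous_id.dist continuous_const) (continuous_id.dist continuous_const)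

/-- the hexagon around `0` -/
def HXA_K : Set (ℝ × ℝ) := {z | |z.1| ≤ 1 / 2 ∧ |z.2| ≤ (1 - |z.1|) / √3}

theorem HXA_K_closed : IsClosed HXA_K := by
  have h : HXA_K = {z : ℝ × ℝ | |z.1| ≤ 1 / 2} ∩ {z : ℝ × ℝ | |z.2| ≤ (1 - |z.1|) / √3} := rfl
  rw [h]
  refine IsClosed.inter (isClosed_le ?_ ?_) (isClosed_le ?_ ?_) <;> fun_prop

theorem HXA_K_vol : volume HXA_K = ENNReal.ofReal (√3 / 2) := by
  have h3 := HXA_s3
  have hs0 : 0 < √3 := by positivity
  rw [Measure.volume_eq_prod, Measure.prod_apply HXA_K_closed.measurableSet]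
  have h1 : ∀ a : ℝ, volume (Prod.mk a ⁻¹' HXA_K) =
      (Icc (-(1 / 2) : ℝ) (1 / 2)).indicator (fun a => ENNReal.ofReal (2 * (1 - |a|) / √3)) a := by
    intro a
    by_cases ha : |a| ≤ 1 / 2
    · have e1 : Prod.mk a ⁻¹' HXA_K = Icc (-((1 - |a|) / √3)) ((1 - |a|) / √3) := by
        ext b
        simp only [HXA_K, mem_preimage, mem_ofPred_eq, mem_Icc]
        rw [← abs_le]
        exact ⟨fun h => h.2, fun h => ⟨ha, h⟩⟩
      have e2 : a ∈ Icc (-(1 / 2) : ℝ) (1 / 2) := abs_le.1 ha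
      rw [e1, Real.volume_Icc, indicator_of_mem e2]
      congr 1
      ring
    · have e1 : Prod.mk a ⁻¹' HXA_K = ∅ := by
        ext b
        simp only [HXA_K, mem_preimage, mem_ofPred_eq, mem_empty_iff_false, iff_false]
        exact fun h => ha h.1
      have e2 : a ∉ Icc (-(1 / 2) : ℝ) (1 / 2) := fun h => ha (abs_le.2 h)
      rw [e1, indicator_of_notMem e2, measure_empty]
  simp_rw [h1]
  rw [lintegral_indicator measurableSet_Icc]
  have hcont : Continuous (fun a : ℝ => 2 * (1 - |a|) / √3) := by fun_prop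
  rw [← ofReal_integral_eq_lintegral_ofReal]
  · congr 1
    rw [integral_Icc_eq_integral_Ioc, ← intervalIntegral.integral_of_le (by norm_num)]
    rw [← intervalIntegral.integral_add_adjacent_intervals (b := 0)
      (hcont.intervalIntegrable _ _) (hcont.intervalIntegrable _ _)]
    have i1 : ∫ a in (-(1 / 2) : ℝ)..0, 2 * (1 - |a|) / √3 = ∫ a in (-(1 / 2) : ℝ)..0, 2 / √3 * (1 + a) := by
      refine intervalIntegral.integral_congr fun a ha => ?_
      rw [uIcc_of_le (by norm_num)] at ha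
      rw [abs_of_nonpos ha.2]
      ring
    have i2 : ∫ a in (0 : ℝ)..(1 / 2), 2 * (1 - |a|) / √3 = ∫ a in (0 : ℝ)..(1 / 2), 2 / √3 * (1 - a) := by
      refine intervalIntegral.integral_congr fun a ha => ?_
      rw [uIcc_of_le (by norm_num)] at ha
      rw [abs_of_nonneg ha.1]
      ring
    rw [i1, i2, intervalIntegral.integral_const_mul, intervalIntegral.integral_const_mul]
    have j1 : ∫ a in (-(1 / 2) : ℝ)..0, (1 + a) = 3 / 8 := by
      rw [intervalIntegral.integral_add (by simp) (by simp)]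
      simp
      norm_num
    have j2 : ∫ a in (0 : ℝ)..(1 / 2), (1 - a) = 3 / 8 := by
      rw [intervalIntegral.integral_sub (by simp) (by simp)]
      simp
      norm_num
    rw [j1, j2]
    field_simp
    rw [h3]
    norm_num
  · exact hcont.integrableOn_Icc
  · refine (ae_restrict_iff' measurableSet_Icc).2 (Filter.Eventually.of_forall fun a ha => ?_)
    have h5 : |a| ≤ 1 / 2 := abs_le.2 ha
    have h6 : 0 ≤ 1 - |a| := by linarith
    show (0 : ℝ) ≤ 2 * (1 - |a|) / √3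
    positivity

theorem HXA_half {z d : ℂ} (h : dist z 0 ≤ dist z d) (hd : d.re ^ 2 + d.im ^ 2 = 1) :
    z.re * d.re + z.im * d.im ≤ 1 / 2 := by
  have h1 : dist z 0 ^ 2 ≤ dist z d ^ 2 := pow_le_pow_left₀ dist_nonneg h 2
  rw [HXA_dist, HXA_dist] at h1
  simp only [Complex.zero_re, Complex.zero_im] at h1
  nlinarith

theorem hex_vol {σ : ℂ} (hσ : σ ∈ Lam) : volume (Hex σ) ≤ ENNReal.ofReal (√3 / 2) := by
  obtain ⟨m, n, rfl⟩ := hσ
  have h3 := HXA_s3
  have hs0 : 0 < √3 := by positivity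
  have hsub : Hex (HXA_pt m n) ⊆ (fun z => z + (-HXA_pt m n)) ⁻¹'
      (Complex.measurableEquivRealProd ⁻¹' HXA_K) := by
    intro p hp
    have key : ∀ i j : ℤ, (HXA_pt i j).re ^ 2 + (HXA_pt i j).im ^ 2 = 1 →
        (p + (-HXA_pt m n)).re * (HXA_pt i j).re + (p + (-HXA_pt m n)).im * (HXA_pt i j).im
          ≤ 1 / 2 := by
      intro i j hij
      refine HXA_half ?_ hij
      have h1 := hp _ (HXA_mem (m + i) (n + j))
      have e1 : dist (p + -HXA_pt m n) 0 = dist p (HXA_pt m n) := by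
        rw [dist_eq_norm, dist_eq_norm]
        congr 1
        ring
      have e2 : dist (p + -HXA_pt m n) (HXA_pt i j) = dist p (HXA_pt (m + i) (n + j)) := by
        rw [dist_eq_norm, dist_eq_norm]
        congr 1
        unfold HXA_pt
        push_cast
        ring
      rw [e1, e2]
      exact h1
    set z := p + (-HXA_pt m n) with hz
    have k1 := key 1 0 (by rw [HXA_pt_re, HXA_pt_im]; norm_num)
    have k2 := key (-1) 0 (by rw [HXA_pt_re, HXA_pt_im]; norm_num)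
    have k3 := key 0 1 (by rw [HXA_pt_re, HXA_pt_im]; push_cast; nlinarith)
    have k4 := key 0 (-1) (by rw [HXA_pt_re, HXA_pt_im]; push_cast; nlinarith)
    have k5 := key (-1) 1 (by rw [HXA_pt_re, HXA_pt_im]; push_cast; nlinarith)
    have k6 := key 1 (-1) (by rw [HXA_pt_re, HXA_pt_im]; push_cast; nlinarith)
    rw [HXA_pt_re, HXA_pt_im] at k1 k2 k3 k4 k5 k6
    push_cast at k1 k2 k3 k4 k5 k6
    show (z.re, z.im) ∈ HXA_K
    have hre : |z.re| ≤ 1 / 2 := abs_le.2 ⟨by linarith, by linarith⟩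
    refine ⟨hre, ?_⟩
    show |z.im| ≤ (1 - |z.re|) / √3
    rw [le_div_iff₀ hs0]
    rcases abs_cases z.re with ⟨h4, _⟩ | ⟨h4, _⟩ <;> rcases abs_cases z.im with ⟨h5, _⟩ | ⟨h5, _⟩ <;>
      rw [h4, h5] <;> nlinarith
  calc volume (Hex (HXA_pt m n)) ≤ volume ((fun z => z + (-HXA_pt m n)) ⁻¹'
      (Complex.measurableEquivRealProd ⁻¹' HXA_K)) := measure_mono hsub
    _ = volume (Complex.measurableEquivRealProd ⁻¹' HXA_K) := measure_preimage_add_right _ _ _
    _ = volume HXA_K :=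
        Complex.volume_preserving_equiv_real_prod.measure_preimage
          HXA_K_closed.measurableSet.nullMeasurableSet
    _ = ENNReal.ofReal (√3 / 2) := HXA_K_vol
    _ ≤ ENNReal.ofReal (√3 / 2) := le_rfl

end Pool.Agent.H20.AL
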