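import Pool.Agent.H20.AL.HXA

/-!
# CFG: from the frozen statement to `Conf`

`F = {c ∈ Lam \ {s} : g c ≠ c}` is finite; let `F`, `g '' F`, `s` be in the closed ball of radius `R0` around `0`, and take
`R1 = max R R0 + 3`, `S = Lam ∩ closedBall 0 R1` (finite: `lam_sep`, boundedness), `Y = g '' (S \ {s})`.
`g` is injective on `Lam \ {s}` (distances `≥ 1`), so `Y.card + 1 = S.card`; `g = id` outside `S`.
`dj`: `g c = σ` with `σ ∈ Lam \ S`: `σ = g σ`, so `c = σ`.  `collar`: `‖σ‖ > R1`, `dist σ y < 2`: `‖y‖ > R0`, `y = g c`; `c ∉ F` (else `‖y‖ ≤ R0`), so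
`y = c ∈ Lam`.  `hball`: `p` with `‖p‖ ≤ R` is in `Hex σ`, `dist p σ < 1` (`hex_cover`), so `σ ∈ S`.  `hY`: elements of `X` of norm `≤ R` are
in `Y` (elements of `Lam \ S` have norm `> R1`).
-/

set_option autoImplicit false

open MeasureTheory Set Real

noncomputable section

namespace Pool.Agent.H20.AL

theorem CFG_finite {X : Set ℂ} (hX : Sep X) (R : ℝ) : (X ∩ Metric.closedBall 0 R).Finite := by
  have hK : TotallyBounded (Metric.closedBall (0 : ℂ) R) := (isCompact_closedBall _ R).totallyBounded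
  rw [Metric.totallyBounded_iff] at hK
  obtain ⟨t, ht, hcov⟩ := hK (1 / 2) (by norm_num)
  have hsub : X ∩ Metric.closedBall 0 R ⊆ ⋃ y ∈ t, (X ∩ Metric.ball y (1 / 2)) := by
    rintro x ⟨hx, hxB⟩
    have h1 := hcov hxB
    simp only [Set.mem_iUnion] at h1 ⊢
    obtain ⟨y, hy, hxy⟩ := h1
    exact ⟨y, hy, hx, hxy⟩
  refine Set.Finite.subset (ht.biUnion fun y _ => ?_) hsub
  apply Set.Subsingleton.finite
  rintro a ⟨ha, hab⟩ b ⟨hb, hbb⟩
  by_contra hne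
  have h1 := hX a ha b hb hne
  have h2 := dist_triangle_right a b y
  rw [Metric.mem_ball] at hab hbb
  linarith

theorem cfg {s : ℂ} (hs : s ∈ Lam) (g : ℂ → ℂ) (hfin : ((Lam \ {s}) ∩ {c | g c ≠ c}).Finite)
    (hg : ∀ c ∈ Lam \ {s}, ∀ d ∈ Lam \ {s}, c ≠ d → (1 : ℝ) ≤ dist (g c) (g d)) (R : ℝ) :
    ∃ S Y : Finset ℂ, Conf (g '' (Lam \ {s})) S Y ∧ Metric.closedBall 0 R ⊆ ⋃ σ ∈ S, Hex σ ∧
      ∀ x ∈ g '' (Lam \ {s}), ‖x‖ ≤ R → x ∈ Y := by
  classical
  -- a bound for the moved points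
  obtain ⟨R0, hR0s, hR0F, hR0g⟩ : ∃ R0 : ℝ, ‖s‖ ≤ R0 ∧ (∀ c ∈ (Lam \ {s}) ∩ {c | g c ≠ c}, ‖c‖ ≤ R0) ∧
      ∀ c ∈ (Lam \ {s}) ∩ {c | g c ≠ c}, ‖g c‖ ≤ R0 := by
    have h1 : Bornology.IsBounded (({s} ∪ ((Lam \ {s}) ∩ {c | g c ≠ c})) ∪
        g '' ((Lam \ {s}) ∩ {c | g c ≠ c})) :=
      (((Set.finite_singleton s).union hfin).union (hfin.image g)).isBounded
    obtain ⟨R0, hR0⟩ := h1.exists_norm_le
    exact ⟨R0, hR0 s (Or.inl (Or.inl rfl)), fun c hc => hR0 c (Or.inl (Or.inr hc)),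
      fun c hc => hR0 (g c) (Or.inr ⟨c, hc, rfl⟩)⟩
  set R1 : ℝ := max R R0 + 3 with hR1
  have hRR1 : R + 3 ≤ R1 := by have := le_max_left R R0; linarith
  have hR0R1 : R0 + 3 ≤ R1 := by have := le_max_right R R0; linarith
  have hSfin : (Lam ∩ Metric.closedBall 0 R1).Finite := CFG_finite lam_sep R1
  let S : Finset ℂ := hSfin.toFinset
  have hS : ∀ c, c ∈ S ↔ c ∈ Lam ∧ ‖c‖ ≤ R1 := by
    intro c
    simp only [S, Set.Finite.mem_toFinset, Set.mem_inter_iff, Metric.mem_closedBall, dist_zero_right]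
  have hsS : s ∈ S := (hS s).2 ⟨hs, by linarith⟩
  have hfix : ∀ c ∈ Lam \ {s}, R0 < ‖c‖ → g c = c := by
    intro c hc hn
    by_contra hne
    have := hR0F c ⟨hc, hne⟩
    linarith
  have hmemL : ∀ c ∈ S.erase s, c ∈ Lam \ {s} := by
    intro c hc
    rw [Finset.mem_erase] at hc
    exact ⟨((hS c).1 hc.2).1, hc.1⟩
  have hinj : Set.InjOn g (S.erase s : Finset ℂ) := by
    intro c hc d hd h
    by_contra hne
    have := hg c (hmemL c hc) d (hmemL d hd) hne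
    rw [h, dist_self] at this
    linarith
  refine ⟨S, (S.erase s).image g, ⟨?_, ?_, ?_, ?_, ?_, ?_⟩, ?_, ?_⟩
  · rintro x ⟨c, hc, rfl⟩ y ⟨d, hd, rfl⟩ hne
    exact hg c hc d hd (fun h => hne (by rw [h]))
  · intro c hc
    exact ((hS c).1 hc).1
  · ext x
    simp only [Set.mem_image, Set.mem_union, Set.mem_sdiff, Finset.coe_image, Finset.mem_coe]
    constructor
    · rintro ⟨c, hc, rfl⟩
      by_cases hcS : c ∈ S
      · exact Or.inr ⟨c, Finset.mem_erase.2 ⟨hc.2, hcS⟩, rfl⟩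
      · left
        have hn : R1 < ‖c‖ := by
          by_contra hcon
          exact hcS ((hS c).2 ⟨hc.1, not_lt.1 hcon⟩)
        rw [hfix c hc (by linarith)]
        exact ⟨hc.1, hcS⟩
    · rintro (⟨hx, hxS⟩ | ⟨c, hc, rfl⟩)
      · have hn : R1 < ‖x‖ := by
          by_contra hcon
          exact hxS ((hS x).2 ⟨hx, not_lt.1 hcon⟩)
        have hxs : x ≠ s := fun h => hxS (h ▸ hsS)
        exact ⟨x, ⟨hx, hxs⟩, hfix x ⟨hx, hxs⟩ (by linarith)⟩
      · exact ⟨c, hmemL c hc, rfl⟩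
  · rw [Finset.card_image_of_injOn hinj, Finset.card_erase_of_mem hsS]
    have : 0 < S.card := Finset.card_pos.2 ⟨s, hsS⟩
    omega
  · rw [Set.disjoint_left]
    intro x hx hx'
    simp only [Finset.coe_image, Set.mem_image, Finset.mem_coe] at hx
    obtain ⟨c, hc, rfl⟩ := hx
    obtain ⟨hxL, hxS⟩ := hx'
    have hn : R1 < ‖g c‖ := by
      by_contra hcon
      exact hxS ((hS _).2 ⟨hxL, not_lt.1 hcon⟩)
    by_cases hgc : g c = c
    · rw [hgc] at hxS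
      exact hxS (Finset.mem_erase.1 hc).2
    · have := hR0g c ⟨hmemL c hc, hgc⟩
      linarith
  · intro σ hσ y hy hd
    obtain ⟨c, hc, rfl⟩ := Finset.mem_image.1 hy
    have hn : R1 < ‖σ‖ := by
      by_contra hcon
      exact hσ.2 ((hS _).2 ⟨hσ.1, not_lt.1 hcon⟩)
    have hn2 : R0 < ‖g c‖ := by
      have h1 : ‖σ‖ ≤ ‖g c‖ + dist σ (g c) := by
        rw [dist_eq_norm]
        have := norm_add_le (g c) (σ - g c)
        rwa [add_sub_cancel] at this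
      linarith
    by_cases hgc : g c = c
    · rw [hgc]; exact (hmemL c hc).1
    · have := hR0g c ⟨hmemL c hc, hgc⟩
      linarith
  · intro p hp
    rw [Metric.mem_closedBall, dist_zero_right] at hp
    obtain ⟨σ, hσ, hpσ, hd⟩ := hex_cover p
    simp only [Set.mem_iUnion]
    refine ⟨σ, (hS σ).2 ⟨hσ, ?_⟩, hpσ⟩
    have h1 : ‖σ‖ ≤ ‖p‖ + dist p σ := by
      rw [dist_comm, dist_eq_norm]
      have := norm_add_le p (σ - p)
      rwa [add_sub_cancel] at this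
    linarith
  · rintro x ⟨c, hc, rfl⟩ hn
    by_cases hcS : c ∈ S
    · exact Finset.mem_image.2 ⟨c, Finset.mem_erase.2 ⟨hc.2, hcS⟩, rfl⟩
    · exfalso
      have hn2 : R1 < ‖c‖ := by
        by_contra hcon
        exact hcS ((hS c).2 ⟨hc.1, not_lt.1 hcon⟩)
      rw [hfix c hc (by linarith)] at hn
      linarith

end Pool.Agent.H20.AL
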