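import Pool.Agent.H20.AL.CEL

/-!
# TRA: triangles

* `tri_sub`: `Tri a b c ⊆ Cone a b c` (etc. by rotation `tri_rot`).
* `half`: a half disc has area `≤ π/6`: `H = {q ∈ D 0 : cr u q > 0}` and `-H` are disjoint subsets of `D 0`.
* `corner_sum`: the three corners of a positively oriented triangle, cut with the discs, have total area `≤ π/6`:
  translate the corner at `a` by `-a`, map the corner at `c` by `p ↦ -(p - c)` and translate the corner at `b` by `-b`: the images
  `{cr (b-a) q > 0, cr q (c-a) > 0}`, `{cr (c-a) q > 0, cr q (c-b) > 0}`, `{cr (c-b) q > 0, cr q (a-b) > 0}` (cut with `D 0`) are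
  pairwise disjoint and contained in the half disc `{cr (b-a) q > 0}`.  (For the third: `q = λ (c-b) + μ (a-b)`, `λ, μ > 0`; the first and
  the third: `cr (c-b) q = cr (c-a) q - cr (b-a) q < 0` on the first.)
* `tri_vol`: the area of `Tri a b c` is `cr (b-a) (c-a) / 2` if this is positive (image of the standard triangle under an affine
  map of determinant `cr (b-a) (c-a)`, `Measure.addHaar_image_linearMap`; the standard triangle `{0<s, 0<t, s+t<1}` has area 1/2).
-/

set_option autoImplicit false

open MeasureTheory Set Real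

noncomputable section

namespace Pool.Agent.H20.AL

theorem tri_rot (a b c : ℂ) : Tri a b c = Tri b c a := by
  ext p; simp only [Tri, Set.mem_ofPred_eq]; tauto

theorem tri_sub (a b c : ℂ) : Tri a b c ⊆ Cone a b c := by
  rintro p ⟨h1, -, h3⟩
  refine ⟨h1, ?_⟩
  have : cr (p - a) (c - a) = cr (a - c) (p - c) := by
    simp only [cr, Complex.sub_re, Complex.sub_im]; ring
  rw [this]
  exact h3

theorem TRA_cr_cont (u x : ℂ) : Continuous fun p : ℂ => cr u (p - x) := by
  unfold cr
  fun_prop

theorem TRA_fin (x : ℂ) {s : Set ℂ} (hs : s ⊆ D x) : volume s ≠ ⊤ :=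
  measure_ne_top_of_subset hs (by unfold D; exact measure_ball_lt_top.ne)

theorem half (x u : ℂ) : volume.real (D x ∩ {p | 0 < cr u (p - x)}) ≤ π / 6 := by
  set H : Set ℂ := D x ∩ {p | 0 < cr u (p - x)} with hH
  set H' : Set ℂ := D x ∩ {p | cr u (p - x) < 0} with hH'
  have hHo : IsOpen H := (isOpen_D x).inter (isOpen_lt continuous_const (TRA_cr_cont u x))
  have hHo' : IsOpen H' := (isOpen_D x).inter (isOpen_lt (TRA_cr_cont u x) continuous_const)
  have hpre : (fun p => (x + x) - p) ⁻¹' H = H' := by
    ext p
    simp only [hH, hH', Set.mem_preimage, Set.mem_inter_iff, mem_D, Set.mem_ofPred_eq]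
    have h1 : x + x - p - x = -(p - x) := by ring
    rw [h1, norm_neg]
    have h2 : cr u (-(p - x)) = -cr u (p - x) := by
      simp only [cr, Complex.neg_re, Complex.neg_im]; ring
    rw [h2, neg_pos]
  have hvol : volume H' = volume H := by
    rw [← hpre]
    exact (Measure.measurePreserving_sub_left volume (x + x)).measure_preimage
      hHo.measurableSet.nullMeasurableSet
  have hdis : Disjoint H H' := by
    rw [Set.disjoint_left]
    rintro p ⟨_, h1⟩ ⟨_, h2⟩
    rw [Set.mem_ofPred_eq] at h1 h2
    exact lt_asymm h1 h2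
  have hsub : H ∪ H' ⊆ D x := by
    rintro p (h | h)
    · exact h.1
    · exact h.1
  have h1 : volume.real (H ∪ H') = volume.real H + volume.real H' :=
    measureReal_union hdis hHo'.measurableSet (TRA_fin x Set.inter_subset_left)
      (TRA_fin x Set.inter_subset_left)
  have h2 : volume.real (H ∪ H') ≤ volume.real (D x) :=
    measureReal_mono hsub (TRA_fin x subset_rfl)
  have h3 : volume.real H' = volume.real H := by
    unfold Measure.real
    rw [hvol]
  rw [D_vol] at h2
  linarith

theorem corner_sum {a b c : ℂ} (h : 0 < cr (b - a) (c - a)) :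
    volume.real (Cone a b c ∩ D a) + volume.real (Cone b c a ∩ D b) + volume.real (Cone c a b ∩ D c) ≤ π / 6 := by
  set P : Set ℂ := {q | 0 < cr (b - a) q ∧ cr (c - a) q < 0} ∩ D 0 with hP
  set Q : Set ℂ := {q | 0 < cr (c - b) q ∧ 0 < cr (b - a) q} ∩ D 0 with hQ
  set R : Set ℂ := {q | 0 < cr (c - a) q ∧ cr (c - b) q < 0} ∩ D 0 with hR
  have hc : ∀ u : ℂ, Continuous fun p : ℂ => cr u p := by
    intro u
    unfold cr
    fun_prop
  have hPo : IsOpen P := ((isOpen_lt continuous_const (hc _)).inter
    (isOpen_lt (hc _) continuous_const)).inter (isOpen_D 0)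
  have hQo : IsOpen Q := ((isOpen_lt continuous_const (hc _)).inter
    (isOpen_lt continuous_const (hc _))).inter (isOpen_D 0)
  have hRo : IsOpen R := ((isOpen_lt continuous_const (hc _)).inter
    (isOpen_lt (hc _) continuous_const)).inter (isOpen_D 0)
  have e1 : volume.real (Cone a b c ∩ D a) = volume.real P := by
    unfold Measure.real
    rw [← measure_preimage_add_right volume a]
    congr 2
    ext q
    simp only [Set.mem_preimage, Set.mem_inter_iff, Cone, Set.mem_ofPred_eq, mem_D, hP,
      add_sub_cancel_right, sub_zero]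
    rw [cr_comm q (c - a), neg_pos]
  have e2 : volume.real (Cone b c a ∩ D b) = volume.real Q := by
    unfold Measure.real
    rw [← measure_preimage_add_right volume b]
    congr 2
    ext q
    simp only [Set.mem_preimage, Set.mem_inter_iff, Cone, Set.mem_ofPred_eq, mem_D, hQ,
      add_sub_cancel_right, sub_zero]
    have : cr q (a - b) = cr (b - a) q := by
      simp only [cr, Complex.sub_re, Complex.sub_im]; ring
    rw [this]
  have e3 : volume.real (Cone c a b ∩ D c) = volume.real R := by
    have hm : MeasurableSet (Cone c a b ∩ D c) :=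
      ((isOpen_Cone c a b).inter (isOpen_D c)).measurableSet
    unfold Measure.real
    rw [← (Measure.measurePreserving_sub_left volume c).measure_preimage hm.nullMeasurableSet]
    congr 2
    ext q
    simp only [Set.mem_preimage, Set.mem_inter_iff, Cone, Set.mem_ofPred_eq, mem_D, hR, sub_zero]
    have h1 : c - q - c = -q := by ring
    rw [h1, norm_neg]
    have h2 : cr (a - c) (-q) = cr (c - a) q := by
      simp only [cr, Complex.sub_re, Complex.sub_im, Complex.neg_re, Complex.neg_im]; ring
    have h3 : cr (-q) (b - c) = -cr (c - b) q := by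
      simp only [cr, Complex.sub_re, Complex.sub_im, Complex.neg_re, Complex.neg_im]; ring
    rw [h2, h3, neg_pos]
  have key : ∀ q : ℂ, cr (c - b) q = cr (c - a) q - cr (b - a) q := by
    intro q
    simp only [cr, Complex.sub_re, Complex.sub_im]; ring
  have d1 : Disjoint P Q := by
    rw [Set.disjoint_left]
    rintro q ⟨⟨h1, h2⟩, _⟩ ⟨⟨h3, _⟩, _⟩
    have := key q
    linarith
  have d2 : Disjoint (P ∪ Q) R := by
    rw [Set.disjoint_left]
    rintro q (⟨⟨h1, h2⟩, _⟩ | ⟨⟨h1, h2⟩, _⟩) ⟨⟨h3, h4⟩, _⟩
    · exact lt_asymm h2 h3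
    · exact lt_asymm h1 h4
  have hP0 : P ⊆ D 0 := Set.inter_subset_right
  have hQ0 : Q ⊆ D 0 := Set.inter_subset_right
  have hR0 : R ⊆ D 0 := Set.inter_subset_right
  have h1 : volume.real (P ∪ Q) = volume.real P + volume.real Q :=
    measureReal_union d1 hQo.measurableSet (TRA_fin 0 hP0) (TRA_fin 0 hQ0)
  have h2 : volume.real (P ∪ Q ∪ R) = volume.real (P ∪ Q) + volume.real R :=
    measureReal_union d2 hRo.measurableSet (TRA_fin 0 (Set.union_subset hP0 hQ0)) (TRA_fin 0 hR0)
  have h3 : P ∪ Q ∪ R ⊆ D 0 ∩ {p | 0 < cr (b - a) (p - 0)} := by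
    rintro q ((hq | hq) | hq)
    · exact ⟨hP0 hq, by rw [Set.mem_ofPred_eq, sub_zero]; exact hq.1.1⟩
    · exact ⟨hQ0 hq, by rw [Set.mem_ofPred_eq, sub_zero]; exact hq.1.2⟩
    · refine ⟨hR0 hq, ?_⟩
      rw [Set.mem_ofPred_eq, sub_zero]
      have h4 := hq.1.1
      have h5 := hq.1.2
      have := key q
      linarith
  have h4 : volume.real (P ∪ Q ∪ R) ≤ volume.real (D 0 ∩ {p | 0 < cr (b - a) (p - 0)}) :=
    measureReal_mono h3 (TRA_fin 0 Set.inter_subset_left)
  have h5 := half 0 (b - a)
  rw [e1, e2, e3]
  linarith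

/-- the standard triangle -/
def TRA_T : Set ℂ := {q | 0 < q.re ∧ 0 < q.im ∧ q.re + q.im < 1}

theorem TRA_T_vol : volume TRA_T = ENNReal.ofReal (1 / 2) := by
  have h1 : TRA_T = Complex.measurableEquivRealProd ⁻¹'
      (regionBetween (fun _ => (0 : ℝ)) (fun x => 1 - x) (Set.Ioo 0 1)) := by
    ext q
    simp only [TRA_T, Set.mem_ofPred_eq, regionBetween, Set.mem_preimage, Set.mem_Ioo,
      Complex.measurableEquivRealProd_apply]
    constructor
    · rintro ⟨h1, h2, h3⟩
      exact ⟨⟨h1, by linarith⟩, h2, by linarith⟩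
    · rintro ⟨⟨h1, h2⟩, h3, h4⟩
      exact ⟨h1, h3, by linarith⟩
  have hI : IntegrableOn (fun x : ℝ => 1 - x) (Set.Ioo 0 1) := by
    apply Continuous.integrableOn_Ioc (a := 0) (b := 1) (by fun_prop) |>.mono_set
    exact Set.Ioo_subset_Ioc_self
  rw [h1, Complex.volume_preserving_equiv_real_prod.measure_preimage
    (measurableSet_regionBetween measurable_const (by fun_prop) measurableSet_Ioo).nullMeasurableSet,
    Measure.volume_eq_prod,
    volume_regionBetween_eq_integral (integrableOn_const (by simp) (by simp)) hI measurableSet_Ioo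
      (fun x hx => by linarith [hx.2])]
  congr 1
  have h2 : ∫ y in Set.Ioo (0:ℝ) 1, ((fun x : ℝ => 1 - x) - (fun _ : ℝ => (0:ℝ)) : ℝ → ℝ) y
      = ∫ y in (0:ℝ)..1, (1 - y) := by
    rw [intervalIntegral.integral_of_le zero_le_one, integral_Ioc_eq_integral_Ioo]
    simp
  rw [h2]
  rw [intervalIntegral.integral_sub (by simp) (by simp)]
  simp
  norm_num

/-- the linear map -/
def TRA_L (u v : ℂ) : ℂ →ₗ[ℝ] ℂ where
  toFun q := (q.re : ℂ) * u + (q.im : ℂ) * v
  map_add' p q := by simp only [Complex.add_re, Complex.add_im]; push_cast; ring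
  map_smul' t q := by simp; ring

theorem TRA_det (u v : ℂ) : LinearMap.det (TRA_L u v) = cr u v := by
  rw [← LinearMap.det_toMatrix Complex.basisOneI, Matrix.det_fin_two]
  simp [LinearMap.toMatrix_apply, TRA_L, cr]
  ring

theorem tri_vol {a b c : ℂ} (h : 0 < cr (b - a) (c - a)) : volume.real (Tri a b c) = cr (b - a) (c - a) / 2 := by
  have h1 : (fun q => q + a) ⁻¹' (Tri a b c) = TRA_L (b - a) (c - a) '' TRA_T := by
    ext q
    simp only [Set.mem_preimage, Tri, Set.mem_ofPred_eq, Set.mem_image, TRA_T]
    constructor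
    · rintro ⟨h1, h2, h3⟩
      refine ⟨⟨cr q (c - a) / cr (b - a) (c - a), cr (b - a) q / cr (b - a) (c - a)⟩, ?_, ?_⟩
      · refine ⟨div_pos ?_ h, div_pos ?_ h, ?_⟩
        · have : cr q (c - a) = cr (a - c) (q + a - c) := by
            simp only [cr, Complex.sub_re, Complex.sub_im, Complex.add_re, Complex.add_im]; ring
          rw [this]; exact h3
        · rw [add_sub_cancel_right] at h1; exact h1
        · show cr q (c - a) / cr (b - a) (c - a) + cr (b - a) q / cr (b - a) (c - a) < 1
          rw [← add_div, div_lt_one h]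
          have : cr (c - b) (q + a - b) = cr (b - a) (c - a) - (cr q (c - a) + cr (b - a) q) := by
            simp only [cr, Complex.sub_re, Complex.sub_im, Complex.add_re, Complex.add_im]; ring
          rw [this] at h2
          linarith
      · have h0 : cr (b - a) (c - a) ≠ 0 := h.ne'
        apply Complex.ext
        · simp only [TRA_L, LinearMap.coe_mk, AddHom.coe_mk, Complex.add_re, Complex.re_ofReal_mul]
          field_simp
          simp only [cr]
          ring
        · simp only [TRA_L, LinearMap.coe_mk, AddHom.coe_mk, Complex.add_im, Complex.im_ofReal_mul]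
          field_simp
          simp only [cr]
          ring
    · rintro ⟨p, ⟨h1, h2, h3⟩, rfl⟩
      simp only [TRA_L, LinearMap.coe_mk, AddHom.coe_mk]
      refine ⟨?_, ?_, ?_⟩
      · have : cr (b - a) ((p.re : ℂ) * (b - a) + (p.im : ℂ) * (c - a) + a - a)
            = p.im * cr (b - a) (c - a) := by
          simp only [cr, Complex.sub_re, Complex.sub_im, Complex.add_re, Complex.add_im,
            Complex.re_ofReal_mul, Complex.im_ofReal_mul]; ring
        rw [this]; exact mul_pos h2 h
      · have : cr (c - b) ((p.re : ℂ) * (b - a) + (p.im : ℂ) * (c - a) + a - b)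
            = (1 - p.re - p.im) * cr (b - a) (c - a) := by
          simp only [cr, Complex.sub_re, Complex.sub_im, Complex.add_re, Complex.add_im,
            Complex.re_ofReal_mul, Complex.im_ofReal_mul]; ring
        rw [this]; exact mul_pos (by linarith) h
      · have : cr (a - c) ((p.re : ℂ) * (b - a) + (p.im : ℂ) * (c - a) + a - c)
            = p.re * cr (b - a) (c - a) := by
          simp only [cr, Complex.sub_re, Complex.sub_im, Complex.add_re, Complex.add_im,
            Complex.re_ofReal_mul, Complex.im_ofReal_mul]; ring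
        rw [this]; exact mul_pos h1 h
  unfold Measure.real
  rw [← measure_preimage_add_right volume a, h1, Measure.addHaar_image_linearMap, TRA_det,
    TRA_T_vol, ENNReal.toReal_mul, ENNReal.toReal_ofReal (abs_nonneg _),
    ENNReal.toReal_ofReal (by norm_num), abs_of_pos h]
  ring

end Pool.Agent.H20.AL
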