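import Pool.Agent.H20.AL.CRS
import Pool.Agent.H20.AL.TRA

/-!
# NOV: two triangles of the packing without common vertices do not overlap

`Good`: positively oriented, squares of the edges `≤ 8/3`, at most one edge of square `≥ 2`.
-/

set_option autoImplicit false

open MeasureTheory Set Real

noncomputable section

namespace Pool.Agent.H20.AL

/-- admissible triangle -/
def Good (v : Fin 3 → ℂ) : Prop :=
  0 < cr (v 1 - v 0) (v 2 - v 0) ∧ (∀ i, ‖v (i + 1) - v i‖ ^ 2 ≤ 8 / 3) ∧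
    ∀ i j, i ≠ j → ‖v (i + 1) - v i‖ ^ 2 < 2 ∨ ‖v (j + 1) - v j‖ ^ 2 < 2

/-- closed triangle of a triple -/
def C3 (v : Fin 3 → ℂ) : Set ℂ := CTri (v 0) (v 1) (v 2)

theorem NOV_orient (v : Fin 3 → ℂ) (i : Fin 3) :
    cr (v (i + 1) - v i) (v (i + 2) - v i) = cr (v 1 - v 0) (v 2 - v 0) := by
  fin_cases i <;> simp [cr] <;> ring

theorem NOV_mem (v : Fin 3 → ℂ) (p : ℂ) : p ∈ C3 v ↔ ∀ i, 0 ≤ cr (v (i + 1) - v i) (p - v i) := by
  constructor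
  · rintro ⟨h0, h1, h2⟩ i
    fin_cases i
    · exact h0
    · exact h1
    · exact h2
  · intro h
    exact ⟨h 0, h 1, h 2⟩

theorem NOV_exit (v : Fin 3 → ℂ) (hv : 0 < cr (v 1 - v 0) (v 2 - v 0)) {p w : ℂ} (hp : p ∈ C3 v)
    (hw : w ∉ C3 v) : ∃ i : Fin 3, ∃ τ s : ℝ, 0 ≤ τ ∧ τ ≤ 1 ∧ 0 ≤ s ∧ s ≤ 1 ∧
      cr (v (i + 1) - v i) (w - v i) < 0 ∧ p + (τ : ℂ) * (w - p) = v i + (s : ℂ) * (v (i + 1) - v i) := by
  obtain ⟨τ, s, h1, h2, h3, h4, h | h | h⟩ := exit_edge hv hp hw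
  · exact ⟨0, τ, s, h1, h2, h3, h4, h.1, h.2⟩
  · exact ⟨1, τ, s, h1, h2, h3, h4, h.1, h.2⟩
  · exact ⟨2, τ, s, h1, h2, h3, h4, h.1, h.2⟩

/-- affine functions along a segment -/
theorem NOV_aff (u z p w : ℂ) (τ : ℝ) :
    cr u (p + (τ : ℂ) * (w - p) - z) = (1 - τ) * cr u (p - z) + τ * cr u (w - z) := by
  simp [cr]; ring

theorem NOV_convex (v : Fin 3 → ℂ) {p w : ℂ} (hp : p ∈ C3 v) (hw : w ∈ C3 v) {τ : ℝ} (h0 : 0 ≤ τ)
    (h1 : τ ≤ 1) : p + (τ : ℂ) * (w - p) ∈ C3 v := by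
  rw [NOV_mem] at *
  intro i
  rw [NOV_aff]
  have := hp i
  have := hw i
  have : 0 ≤ 1 - τ := by linarith
  positivity

theorem NOV_vertex (v : Fin 3 → ℂ) (hv : 0 < cr (v 1 - v 0) (v 2 - v 0)) (i : Fin 3) : v i ∈ C3 v := by
  rw [NOV_mem]
  intro j
  fin_cases i <;> fin_cases j <;> simp [cr] at hv ⊢ <;> nlinarith

theorem NOV_edge (v : Fin 3 → ℂ) (hv : 0 < cr (v 1 - v 0) (v 2 - v 0)) (i : Fin 3) {s : ℝ} (h0 : 0 ≤ s)
    (h1 : s ≤ 1) : v i + (s : ℂ) * (v (i + 1) - v i) ∈ C3 v :=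
  NOV_convex v (NOV_vertex v hv i) (NOV_vertex v hv (i + 1)) h0 h1

/-- no other point of the packing in the closed triangle -/
theorem NOV_out {v : Fin 3 → ℂ} (hg : Good v) {y : ℂ} (hy : ∀ i, 1 ≤ dist y (v i)) : y ∉ C3 v := by
  intro hmem
  rw [NOV_mem] at hmem
  obtain ⟨hpos, hle, -⟩ := hg
  have m0 := hmem 0
  have m1 := hmem 1
  have m2 := hmem 2
  have e0 := hle 0
  have e1 := hle 1
  have e2 := hle 2
  have y0 := hy 0
  have y1 := hy 1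
  have y2 := hy 2
  have i1 : (0 : Fin 3) + 1 = 1 := rfl
  have i2 : (1 : Fin 3) + 1 = 2 := rfl
  have i3 : (2 : Fin 3) + 1 = 0 := rfl
  rw [i1] at m0 e0
  rw [i2] at m1 e1
  rw [i3] at m2 e2
  set a := v 0
  set b := v 1
  set c := v 2
  set Δ := cr (b - a) (c - a) with hΔ
  set l3 := cr (b - a) (y - a) with hl3
  set l1 := cr (c - b) (y - b) with hl1
  set l2 := cr (a - c) (y - c) with hl2
  have hsum : l1 + l2 + l3 = Δ := by simp only [hl1, hl2, hl3, hΔ, cr, Complex.sub_re, Complex.sub_im]; ring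
  -- weighted identity (times Δ)
  have hid : l1 * ‖y - a‖ ^ 2 + l2 * ‖y - b‖ ^ 2 + l3 * ‖y - c‖ ^ 2 = 
      (l1 * l2 * ‖b - a‖ ^ 2 + l2 * l3 * ‖c - b‖ ^ 2 + l3 * l1 * ‖a - c‖ ^ 2) / Δ := by
    rw [eq_div_iff hpos.ne']
    simp only [nsq, hl1, hl2, hl3, hΔ, cr, Complex.sub_re, Complex.sub_im]
    ring
  have q0 : 1 ≤ ‖y - a‖ ^ 2 := by rw [← dist_eq_norm]; nlinarith
  have q1 : 1 ≤ ‖y - b‖ ^ 2 := by rw [← dist_eq_norm]; nlinarith
  have q2 : 1 ≤ ‖y - c‖ ^ 2 := by rw [← dist_eq_norm]; nlinarith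
  have h1 : Δ ≤ l1 * ‖y - a‖ ^ 2 + l2 * ‖y - b‖ ^ 2 + l3 * ‖y - c‖ ^ 2 := by
    rw [← hsum]; nlinarith
  rw [hid, le_div_iff₀ hpos] at h1
  have h2 : l1 * l2 * ‖b - a‖ ^ 2 + l2 * l3 * ‖c - b‖ ^ 2 + l3 * l1 * ‖a - c‖ ^ 2 ≤
      (8 / 3) * (l1 * l2 + l2 * l3 + l3 * l1) := by
    have := mul_le_mul_of_nonneg_left e0 (mul_nonneg m1 m2)
    have := mul_le_mul_of_nonneg_left e1 (mul_nonneg m2 m0)
    have := mul_le_mul_of_nonneg_left e2 (mul_nonneg m0 m1)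
    linarith
  have h3 : l1 * l2 + l2 * l3 + l3 * l1 ≤ Δ ^ 2 / 3 := by
    rw [← hsum]; nlinarith [sq_nonneg (l1 - l2), sq_nonneg (l2 - l3), sq_nonneg (l3 - l1)]
  nlinarith [mul_pos hpos hpos]

/-- Claim A: a segment between two other points of the packing which meets the triangle is long -/
theorem NOV_A {X : Set ℂ} (hX : Sep X) {v : Fin 3 → ℂ} (hvX : ∀ i, v i ∈ X) (hg : Good v) {x y : ℂ}
    (hx : x ∈ X) (hy : y ∈ X) (hxv : ∀ i, x ≠ v i) (hyv : ∀ i, y ≠ v i) {t : ℝ} (ht0 : 0 ≤ t) (ht1 : t ≤ 1)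
    (hm : x + (t : ℂ) * (y - x) ∈ C3 v) : 2 < ‖y - x‖ ^ 2 := by
  have hxo : x ∉ C3 v := NOV_out hg (fun i => hX x hx _ (hvX i) (hxv i))
  have hyo : y ∉ C3 v := NOV_out hg (fun i => hX y hy _ (hvX i) (hyv i))
  set q := x + (t : ℂ) * (y - x) with hq
  obtain ⟨i, τ, s, hτ0, hτ1, hs0, hs1, hneg, he⟩ := NOV_exit v hg.1 hm hxo
  obtain ⟨j, τ', s', hτ0', hτ1', hs0', hs1', hneg', he'⟩ := NOV_exit v hg.1 hm hyo
  have hij : i ≠ j := by
    intro hij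
    rw [← hij] at hneg'
    have h1 := (NOV_mem v q).1 hm i
    rw [hq, NOV_aff] at h1
    rcases ht0.eq_or_lt with h | h
    · rw [← h] at h1; simp at h1; linarith
    · have h2 := mul_neg_of_pos_of_neg h hneg'
      have h3 := mul_nonpos_of_nonneg_of_nonpos (show 0 ≤ 1 - t by linarith) hneg.le
      linarith
  have hcross : ∀ (k : Fin 3) (r u : ℝ), 0 ≤ r → r ≤ 1 → 0 ≤ u → u ≤ 1 →
      x + (r : ℂ) * (y - x) = v k + (u : ℂ) * (v (k + 1) - v k) → 4 ≤ ‖y - x‖ ^ 2 + ‖v (k + 1) - v k‖ ^ 2 := by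
    intro k r u h1 h2 h3 h4 h5
    exact cross4 h1 h2 h3 h4 h5 (hX _ hx _ (hvX k) (hxv k))
      (hX _ (hvX k) _ hy (hyv k).symm) (hX _ hy _ (hvX (k + 1)) (hyv (k + 1)))
      (hX _ (hvX (k + 1)) _ hx (hxv (k + 1)).symm)
  have c1 : 4 ≤ ‖y - x‖ ^ 2 + ‖v (i + 1) - v i‖ ^ 2 := by
    refine hcross i (t - τ * t) s ?_ ?_ hs0 hs1 ?_
    · nlinarith
    · nlinarith
    · rw [← he, hq]; push_cast; ring
  have c2 : 4 ≤ ‖y - x‖ ^ 2 + ‖v (j + 1) - v j‖ ^ 2 := by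
    refine hcross j (t + τ' * (1 - t)) s' ?_ ?_ hs0' hs1' ?_
    · have : 0 ≤ 1 - t := by linarith
      positivity
    · nlinarith
    · rw [← he', hq]; push_cast; ring
  rcases hg.2.2 i j hij with h | h <;> linarith

/-- Claim B: no edge of one triangle meets the other one -/
theorem NOV_B {X : Set ℂ} (hX : Sep X) {v w : Fin 3 → ℂ} (hvX : ∀ i, v i ∈ X) (hwX : ∀ i, w i ∈ X)
    (hg : Good v) (hg' : Good w) (hne : ∀ i j, v i ≠ w j) (k : Fin 3) {t : ℝ} (ht0 : 0 ≤ t) (ht1 : t ≤ 1)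
    (hm : v k + (t : ℂ) * (v (k + 1) - v k) ∈ C3 w) : False := by
  set x := v k with hx
  set y := v (k + 1) with hy
  have hxo : x ∉ C3 w := NOV_out hg' (fun i => hX x (hvX k) _ (hwX i) (hne k i))
  have hyo : y ∉ C3 w := NOV_out hg' (fun i => hX y (hvX (k + 1)) _ (hwX i) (hne (k + 1) i))
  set q := x + (t : ℂ) * (y - x) with hq
  obtain ⟨i, τ, s, hτ0, hτ1, hs0, hs1, hneg, he⟩ := NOV_exit w hg'.1 hm hxo
  obtain ⟨j, τ', s', hτ0', hτ1', hs0', hs1', hneg', he'⟩ := NOV_exit w hg'.1 hm hyo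
  have hij : i ≠ j := by
    intro hij
    rw [← hij] at hneg'
    have h1 := (NOV_mem w q).1 hm i
    rw [hq, NOV_aff] at h1
    rcases ht0.eq_or_lt with h | h
    · rw [← h] at h1; simp at h1; linarith
    · have h2 := mul_neg_of_pos_of_neg h hneg'
      have h3 := mul_nonpos_of_nonneg_of_nonpos (show 0 ≤ 1 - t by linarith) hneg.le
      linarith
  have hlong : ∀ (l : Fin 3) (r u : ℝ), 0 ≤ r → r ≤ 1 → 0 ≤ u → u ≤ 1 →
      x + (r : ℂ) * (y - x) = w l + (u : ℂ) * (w (l + 1) - w l) → 2 < ‖w (l + 1) - w l‖ ^ 2 := by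
    intro l r u h1 h2 h3 h4 h5
    refine NOV_A hX hvX hg (hwX l) (hwX (l + 1)) (fun i => (hne i l).symm)
      (fun i => (hne i (l + 1)).symm) h3 h4 ?_
    rw [← h5]
    exact NOV_edge v hg.1 k h1 h2
  have c1 : 2 < ‖w (i + 1) - w i‖ ^ 2 := by
    refine hlong i (t - τ * t) s ?_ ?_ hs0 hs1 ?_
    · nlinarith
    · nlinarith
    · rw [← he, hq]; push_cast; ring
  have c2 : 2 < ‖w (j + 1) - w j‖ ^ 2 := by
    refine hlong j (t + τ' * (1 - t)) s' ?_ ?_ hs0' hs1' ?_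
    · have : 0 ≤ 1 - t := by linarith
      positivity
    · nlinarith
    · rw [← he', hq]; push_cast; ring
  rcases hg'.2.2 i j hij with h | h <;> linarith

/-- two admissible triangles without common vertices are disjoint -/
theorem nov {X : Set ℂ} (hX : Sep X) {v w : Fin 3 → ℂ} (hvX : ∀ i, v i ∈ X) (hwX : ∀ i, w i ∈ X)
    (hg : Good v) (hg' : Good w) (hne : ∀ i j, v i ≠ w j) :
    Disjoint (C3 v) (C3 w) := by
  rw [Set.disjoint_left]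
  intro p hp hp'
  have hao : v 0 ∉ C3 w := NOV_out hg' (fun i => hX (v 0) (hvX 0) _ (hwX i) (hne 0 i))
  obtain ⟨i, τ, s, hτ0, hτ1, hs0, hs1, -, he⟩ := NOV_exit w hg'.1 hp' hao
  refine NOV_B hX hwX hvX hg' hg (fun i j => (hne j i).symm) i hs0 hs1 ?_
  rw [← he]
  exact NOV_convex v hp (NOV_vertex v hg.1 0) hτ0 hτ1

end Pool.Agent.H20.AL
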