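import Pool.Agent.H20.AL.COR
import Pool.Agent.H20.AL.CFG
import Pool.Agent.H20.AL.NOV

/-!
# FIN: the accounting lemma

`al_gen`: triangles whose vertices may be points of the packing or virtual points (only the corners at points of the packing are
counted); `al_tri`: all vertices in the packing.
-/

set_option autoImplicit false

open MeasureTheory Set Real

noncomputable section

namespace Pool.Agent.H20.AL

/-- open triangle of a triple -/
def T3 (v : Fin 3 → ℂ) : Set ℂ := Tri (v 0) (v 1) (v 2)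

/-- cone of a triple at the vertex `k` -/
def K3 (v : Fin 3 → ℂ) (k : Fin 3) : Set ℂ := Cone (v k) (v (k + 1)) (v (k + 2))

/-- twice the area of a triple -/
def A3 (v : Fin 3 → ℂ) : ℝ := cr (v 1 - v 0) (v 2 - v 0)

theorem T3_sub_C3 (v : Fin 3 → ℂ) : T3 v ⊆ C3 v := fun _ h => ⟨h.1.le, h.2.1.le, h.2.2.le⟩

theorem T3_sub_K3 (v : Fin 3 → ℂ) (k : Fin 3) : T3 v ⊆ K3 v k := by
  unfold T3 K3
  fin_cases k
  · exact tri_sub _ _ _
  · have := tri_sub (v 1) (v 2) (v 0)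
    rw [← tri_rot] at this
    exact this
  · have := tri_sub (v 2) (v 0) (v 1)
    rw [← tri_rot, ← tri_rot] at this
    exact this

theorem T3_bdd (v : Fin 3 → ℂ) (h : 0 < A3 v) {p : ℂ} (hp : p ∈ T3 v) :
    ‖p‖ ≤ ‖v 0‖ + ‖v 1‖ + ‖v 2‖ := by
  obtain ⟨h0, h1, h2⟩ := hp
  set l3 := cr (v 1 - v 0) (p - v 0) with hl3
  set l1 := cr (v 2 - v 1) (p - v 1) with hl1
  set l2 := cr (v 0 - v 2) (p - v 2) with hl2
  have hsum : l1 + l2 + l3 = A3 v := by
    simp only [hl1, hl2, hl3, A3, cr, Complex.sub_re, Complex.sub_im]; ring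
  have hp : (A3 v : ℂ) * p = l1 * v 0 + l2 * v 1 + l3 * v 2 := by
    apply Complex.ext <;>
    simp [hl1, hl2, hl3, A3, cr] <;> ring
  have hn : A3 v * ‖p‖ = ‖(A3 v : ℂ) * p‖ := by
    rw [norm_mul, Complex.norm_real, Real.norm_of_nonneg h.le]
  have hn2 : ‖(l1 : ℂ) * v 0 + l2 * v 1 + l3 * v 2‖ ≤ l1 * ‖v 0‖ + l2 * ‖v 1‖ + l3 * ‖v 2‖ := by
    refine (norm_add_le _ _).trans ?_
    refine (add_le_add (norm_add_le _ _) le_rfl).trans ?_
    rw [norm_mul, norm_mul, norm_mul, Complex.norm_real, Complex.norm_real, Complex.norm_real,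
      Real.norm_of_nonneg h0.le, Real.norm_of_nonneg h1.le, Real.norm_of_nonneg h2.le]
  have hn3 : l1 * ‖v 0‖ + l2 * ‖v 1‖ + l3 * ‖v 2‖ ≤ A3 v * (‖v 0‖ + ‖v 1‖ + ‖v 2‖) := by
    rw [← hsum]
    have := mul_nonneg h1.le (norm_nonneg (v 1))
    have := mul_nonneg h1.le (norm_nonneg (v 2))
    have := mul_nonneg h2.le (norm_nonneg (v 0))
    have := mul_nonneg h2.le (norm_nonneg (v 2))
    have := mul_nonneg h0.le (norm_nonneg (v 0))
    have := mul_nonneg h0.le (norm_nonneg (v 1))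
    linarith
  rw [hp] at hn
  have : A3 v * ‖p‖ ≤ A3 v * (‖v 0‖ + ‖v 1‖ + ‖v 2‖) := by rw [hn]; exact hn2.trans hn3
  exact le_of_mul_le_mul_left this h

open Classical in
/-- general accounting lemma -/
theorem al_gen {s : ℂ} (hs : s ∈ Lam) (g : ℂ → ℂ) (hfin : ((Lam \ {s}) ∩ {c | g c ≠ c}).Finite)
    (hg : ∀ c ∈ Lam \ {s}, ∀ d ∈ Lam \ {s}, c ≠ d → (1 : ℝ) ≤ dist (g c) (g d))
    {X : Set ℂ} (hX : X = g '' (Lam \ {s})) {ι : Type*} (I : Finset ι) (T : ι → Fin 3 → ℂ)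
    (hpos : ∀ i ∈ I, 0 < A3 (T i))
    (hfree : ∀ i ∈ I, ∀ k, T i k ∈ X → Free X (T i k) (T i (k + 1)) ∧ Free X (T i k) (T i (k + 2)))
    (hmiss : ∀ i ∈ I, ∀ y ∈ X, (∀ k, T i k ≠ y) → Disjoint (D y) (T3 (T i)))
    (hdisj : ∀ i ∈ I, ∀ j ∈ I, i ≠ j → Disjoint (T3 (T i)) (T3 (T j))) :
    ∑ i ∈ I, A3 (T i) / 2 ≤ √3 / 2 + kap * ∑ i ∈ I, ∑ k : Fin 3,
      if T i k ∈ X then volume.real (K3 (T i) k ∩ D (T i k)) else 0 := by
  subst hX
  set R : ℝ := ∑ i ∈ I, (‖T i 0‖ + ‖T i 1‖ + ‖T i 2‖) with hR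
  have hRi : ∀ i ∈ I, ‖T i 0‖ + ‖T i 1‖ + ‖T i 2‖ ≤ R := fun i hi =>
    Finset.single_le_sum (f := fun i => ‖T i 0‖ + ‖T i 1‖ + ‖T i 2‖) (fun j _ => by positivity) hi
  have hRk : ∀ i ∈ I, ∀ k, ‖T i k‖ ≤ R := by
    intro i hi k
    have h1 := hRi i hi
    have h2 := norm_nonneg (T i 0)
    have h3 := norm_nonneg (T i 1)
    have h4 := norm_nonneg (T i 2)
    fin_cases k
    · change ‖T i 0‖ ≤ R; linarith
    · change ‖T i 1‖ ≤ R; linarith
    · change ‖T i 2‖ ≤ R; linarith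
  obtain ⟨S, Y, hconf, hball, hY⟩ := cfg hs g hfin hg R
  set X := g '' (Lam \ {s}) with hXdef
  -- corners
  let f : ι × Fin 3 → ℂ × ℂ × ℂ := fun q => (T q.1 q.2, T q.1 (q.2 + 1), T q.1 (q.2 + 2))
  let C : Finset (ℂ × ℂ × ℂ) := ((I ×ˢ Finset.univ).filter (fun q : ι × Fin 3 => T q.1 q.2 ∈ X)).image f
  have hC : ∀ c ∈ C, ∃ i ∈ I, ∃ k : Fin 3, T i k ∈ X ∧ c = (T i k, T i (k + 1), T i (k + 2)) := by
    intro c hc
    obtain ⟨q, hq, rfl⟩ := Finset.mem_image.1 hc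
    rw [Finset.mem_filter, Finset.mem_product] at hq
    exact ⟨q.1, hq.1.1, q.2, hq.2, rfl⟩
  have hP : MeasurableSet (⋃ i ∈ I, T3 (T i)) :=
    Finset.measurableSet_biUnion _ (fun i _ => (isOpen_Tri _ _ _).measurableSet)
  have hPS : (⋃ i ∈ I, T3 (T i)) ⊆ ⋃ σ ∈ S, Hex σ := by
    intro p hp
    simp only [Set.mem_iUnion] at hp
    obtain ⟨i, hi, hp⟩ := hp
    refine hball ?_
    rw [Metric.mem_closedBall, dist_zero_right]
    exact (T3_bdd (T i) (hpos i hi) hp).trans (hRi i hi)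
  have hcore := core hconf C (by
      intro c hc
      obtain ⟨i, hi, k, hk, rfl⟩ := hC c hc
      refine ⟨?_, (hfree i hi k hk).1, (hfree i hi k hk).2⟩
      have := hpos i hi
      rw [A3, ← NOV_orient (T i) k] at this
      exact this)
    (by
      intro c hc
      obtain ⟨i, hi, k, hk, rfl⟩ := hC c hc
      exact hY _ hk (hRk i hi k)) hP hPS
    (by
      intro y hy p hp hV hD
      simp only [Set.mem_iUnion] at hp
      obtain ⟨i, hi, hp⟩ := hp
      have hyX : y ∈ X := by rw [hconf.eq]; exact Or.inr hy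
      by_cases hk : ∀ k, T i k ≠ y
      · exact absurd hp (Set.disjoint_left.1 (hmiss i hi y hyX hk) hD)
      · push Not at hk
        obtain ⟨k, rfl⟩ := hk
        refine ⟨(T i k, T i (k + 1), T i (k + 2)), ?_, rfl, T3_sub_K3 _ k hp⟩
        refine Finset.mem_image.2 ⟨(i, k), ?_, rfl⟩
        rw [Finset.mem_filter, Finset.mem_product]
        exact ⟨⟨hi, Finset.mem_univ _⟩, hyX⟩)
  have hfinite : ∀ i ∈ I, volume (T3 (T i)) ≠ ⊤ := by
    intro i hi
    refine ne_of_lt ?_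
    refine lt_of_le_of_lt (measure_mono (t := Metric.closedBall 0 R) ?_) measure_closedBall_lt_top
    intro p hp
    rw [Metric.mem_closedBall, dist_zero_right]
    exact (T3_bdd (T i) (hpos i hi) hp).trans (hRi i hi)
  have harea : volume.real (⋃ i ∈ I, T3 (T i)) = ∑ i ∈ I, A3 (T i) / 2 := by
    rw [measureReal_biUnion_finset (fun i hi j hj hij => hdisj i hi j hj hij)
      (fun i _ => (isOpen_Tri _ _ _).measurableSet) hfinite]
    exact Finset.sum_congr rfl (fun i hi => tri_vol (hpos i hi))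
  rw [harea] at hcore
  refine hcore.trans ?_
  gcongr
  · exact kap_pos.le
  · calc ∑ c ∈ C, volume.real (Cone c.1 c.2.1 c.2.2 ∩ D c.1)
        ≤ ∑ q ∈ (I ×ˢ Finset.univ).filter (fun q : ι × Fin 3 => T q.1 q.2 ∈ X),
            volume.real (Cone (f q).1 (f q).2.1 (f q).2.2 ∩ D (f q).1) := by
          exact Finset.sum_image_le_of_nonneg (fun _ _ => measureReal_nonneg)
      _ = ∑ i ∈ I, ∑ k : Fin 3,
          if T i k ∈ X then volume.real (K3 (T i) k ∩ D (T i k)) else 0 := by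
          rw [Finset.sum_filter, Finset.sum_product]
          rfl

/-- accounting lemma for triangles of the packing -/
theorem al_tri {s : ℂ} (hs : s ∈ Lam) (g : ℂ → ℂ) (hfin : ((Lam \ {s}) ∩ {c | g c ≠ c}).Finite)
    (hg : ∀ c ∈ Lam \ {s}, ∀ d ∈ Lam \ {s}, c ≠ d → (1 : ℝ) ≤ dist (g c) (g d))
    {X : Set ℂ} (hX : X = g '' (Lam \ {s})) {ι : Type*} (I : Finset ι) (T : ι → Fin 3 → ℂ)
    (hT : ∀ i ∈ I, Good (T i)) (hv : ∀ i ∈ I, ∀ k, T i k ∈ X)
    (hcone : ∀ i ∈ I, ∀ j ∈ I, i ≠ j → ∀ k l, T i k = T j l → Disjoint (K3 (T i) k) (K3 (T j) l)) :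
    ∑ i ∈ I, (A3 (T i) / 2 - √3 / 4) ≤ √3 / 2 := by
  classical
  have hsep : Sep X := by
    subst hX
    rintro x ⟨c, hc, rfl⟩ y ⟨d, hd, rfl⟩ hne
    exact hg c hc d hd (fun h => hne (by rw [h]))
  have hne : ∀ i ∈ I, ∀ k : Fin 3, T i (k + 1) ≠ T i k := by
    intro i hi k h
    have h1 := (hT i hi).1
    rw [← NOV_orient (T i) k, h, sub_self] at h1
    simp [cr] at h1
  have hle : ∀ i ∈ I, ∀ k : Fin 3, dist (T i (k + 1)) (T i k) ≤ √3 := by
    intro i hi k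
    have h1 := (hT i hi).2.1 k
    rw [dist_eq_norm]
    refine Real.le_sqrt_of_sq_le ?_
    linarith
  have h3 : ∀ k : Fin 3, k + 2 + 1 = k := by decide
  have hgen := al_gen hs g hfin hg hX I T (fun i hi => (hT i hi).1)
    (fun i hi k _ => ⟨free_X hsep (hv i hi k) (hv i hi (k + 1)) (hne i hi k) (hle i hi k), by
      have h4 := hne i hi (k + 2)
      have h5 := hle i hi (k + 2)
      rw [h3] at h4 h5
      rw [dist_comm] at h5
      exact free_X hsep (hv i hi k) (hv i hi (k + 2)) h4.symm h5⟩)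
    (fun i hi y hy hk => by
      have hd : ∀ k, 1 ≤ dist y (T i k) := fun k => hsep y hy _ (hv i hi k) (hk k).symm
      have he : ∀ k : Fin 3, dist (T i k) (T i (k + 1)) ^ 2 ≤ 8 / 3 := fun k => by
        rw [dist_comm, dist_eq_norm]; exact (hT i hi).2.1 k
      exact disc_tri (hT i hi).1 (he 0) (he 1) (he 2) (hd 0) (hd 1) (hd 2))
    (fun i hi j hj hij => by
      by_cases hcom : ∃ k l, T i k = T j l
      · obtain ⟨k, l, hkl⟩ := hcom
        exact (hcone i hi j hj hij k l hkl).mono (T3_sub_K3 _ k) (T3_sub_K3 _ l)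
      · push Not at hcom
        exact (nov hsep (hv i hi) (hv j hj) (hT i hi) (hT j hj) hcom).mono
          (T3_sub_C3 _) (T3_sub_C3 _))
  have hsum : ∀ i ∈ I, (∑ k : Fin 3,
      if T i k ∈ X then volume.real (K3 (T i) k ∩ D (T i k)) else 0) ≤ π / 6 := by
    intro i hi
    rw [Fin.sum_univ_three, if_pos (hv i hi 0), if_pos (hv i hi 1), if_pos (hv i hi 2)]
    exact corner_sum (hT i hi).1
  have hk : kap * (π / 6) = √3 / 4 := by
    unfold kap; field_simp; ring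
  have h5 : kap * ∑ i ∈ I, ∑ k : Fin 3,
      (if T i k ∈ X then volume.real (K3 (T i) k ∩ D (T i k)) else 0) ≤ ∑ i ∈ I, √3 / 4 := by
    rw [Finset.mul_sum]
    refine Finset.sum_le_sum (fun i hi => ?_)
    rw [← hk]
    exact mul_le_mul_of_nonneg_left (hsum i hi) kap_pos.le
  rw [Finset.sum_sub_distrib]
  linarith

end Pool.Agent.H20.AL
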