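import Pool.Agent.H20.AL.SPR

/-!
# CEL: the cell in the disc `D x`; measurability

Notation: `w = y - x`, `q = p - x`; `dist p x < dist p y` iff `2 q.w < ‖w‖^2` (`dist_sq`).
* `mem_V_iff`.
* `cap_HC`: if `p ∈ D x` and `‖w‖^2 ≤ 2 q.w` then `√3/2 ‖q‖ ‖w‖^2 < q.w` (`√3 ‖q‖ < 1`, `w ≠ 0`).
* `V_of_HC`: `p ∈ HC x y ε ∩ D x` with `2 q.w < ‖w‖^2` is in `V X x`: otherwise some `y' ≠ x` in `X` has `‖w'‖^2 ≤ 2 q.w'`, so
  `y' ≠ y`, and the direction `q` is in the caps of `y` and of `y'`: contradiction with `three` as in `hc_disj` (here `cr` plays no role).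
* `V_of_not`: `p ∈ D x` not in any cone `HC x y (±1)` and not on a line `x y` (`y ∈ X`, `‖y - x‖ ≤ 2`) is in `V X x`.
* `line_null`: a line has measure `0` (`Measure.addHaar_affineSubspace`, or image of a product).
* measurability: `Cone`, `HC`, `Tri`, `D` are open; `V X x` is a countable intersection of open sets if `X` is countable.
* `D_vol`: area of `D x` (`Complex.volume_ball`): `π/3`.
-/

set_option autoImplicit false

open MeasureTheory Set Real

noncomputable section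

namespace Pool.Agent.H20.AL

theorem mem_V_iff {X : Set ℂ} {x p : ℂ} :
    p ∈ V X x ↔ ∀ y ∈ X, y ≠ x → 2 * dt (p - x) (y - x) < ‖y - x‖ ^ 2 := by
  have key : ∀ y, dist p x < dist p y ↔ 2 * dt (p - x) (y - x) < ‖y - x‖ ^ 2 := by
    intro y
    rw [← pow_lt_pow_iff_left₀ dist_nonneg dist_nonneg two_ne_zero, dist_sq p y x]
    constructor
    · intro h; linarith
    · intro h; linarith
  constructor
  · intro h y hy hne
    exact (key y).1 (h y hy hne)
  · intro h y hy hne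
    exact (key y).2 (h y hy hne)

private theorem CEL_s3 : (0 : ℝ) < √3 := Real.sqrt_pos.2 (by norm_num)

private theorem CEL_s3sq : √3 * √3 = 3 := Real.mul_self_sqrt (by norm_num)

theorem cap_HC {x y p : ℂ} (hp : p ∈ D x) (hyx : y ≠ x) (h : ‖y - x‖ ^ 2 ≤ 2 * dt (p - x) (y - x)) :
    √3 / 2 * ‖p - x‖ * ‖y - x‖ ^ 2 < dt (p - x) (y - x) := by
  rw [mem_D, lt_div_iff₀ CEL_s3] at hp
  have h1 : 0 < ‖y - x‖ ^ 2 := pow_pos (norm_pos_iff.2 (sub_ne_zero.2 hyx)) 2
  have h2 : ‖p - x‖ * √3 * ‖y - x‖ ^ 2 < 1 * ‖y - x‖ ^ 2 := mul_lt_mul_of_pos_right hp h1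
  have h3 : √3 / 2 * ‖p - x‖ * ‖y - x‖ ^ 2 = ‖p - x‖ * √3 * ‖y - x‖ ^ 2 / 2 := by ring
  rw [h3]
  linarith

private theorem CEL_two {X : Set ℂ} (hX : Sep X) {x y y' p : ℂ} (hx : x ∈ X) (hy : y ∈ X)
    (hy' : y' ∈ X) (hyx : y ≠ x) (hyx' : y' ≠ x) (hne : y ≠ y')
    (h : √3 / 2 * ‖p - x‖ * ‖y - x‖ ^ 2 < dt (p - x) (y - x))
    (h' : √3 / 2 * ‖p - x‖ * ‖y' - x‖ ^ 2 < dt (p - x) (y' - x)) : False := by
  have hq : p - x ≠ 0 := by
    intro h0
    rw [h0] at h
    simp [dt] at h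
  have hqn : 0 < ‖p - x‖ := norm_pos_iff.2 hq
  have h1 := dir_cap hq h
  have h2 := dir_cap hq h'
  set t : ℂ := ((1 / (√3 * ‖p - x‖) : ℝ) : ℂ) * (p - x) with ht
  refine three (a := x) (b := y) (c := y') (p := x + t) (hX x hx y hy hyx.symm)
    (hX y hy y' hy' hne) (hX x hx y' hy' hyx'.symm) ?_ ?_ ?_
  · rw [dist_eq_norm, add_sub_cancel_left, ht, norm_mul, Complex.norm_real, Real.norm_eq_abs,
      abs_of_pos (by have := CEL_s3; positivity)]
    apply le_of_eq
    have := CEL_s3.ne'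
    field_simp
  · rw [dist_eq_norm]
    have h3 : x + t - y = t - (y - x) := by ring
    rw [h3]
    exact h1
  · rw [dist_eq_norm]
    have h3 : x + t - y' = t - (y' - x) := by ring
    rw [h3]
    exact h2

theorem V_of_HC {X : Set ℂ} (hX : Sep X) {x y p : ℂ} (hx : x ∈ X) (hy : y ∈ X) (hyx : y ≠ x) {ε : ℝ}
    (hp : p ∈ HC x y ε) (hD : p ∈ D x) (h : 2 * dt (p - x) (y - x) < ‖y - x‖ ^ 2) : p ∈ V X x := by
  rw [mem_V_iff]
  intro y' hy' hyx'
  by_contra hcon
  push Not at hcon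
  have hne : y ≠ y' := by
    rintro rfl
    exact absurd h (not_lt.2 hcon)
  exact CEL_two hX hx hy hy' hyx hyx' hne hp.1 (cap_HC hD hyx' hcon)

private theorem CEL_dt_le (u v : ℂ) : dt u v ≤ ‖u‖ * ‖v‖ := by
  have h1 := lag u v
  have h2 : dt u v ^ 2 ≤ (‖u‖ * ‖v‖) ^ 2 := by
    rw [mul_pow]
    nlinarith [sq_nonneg (cr u v)]
  exact le_of_sq_le_sq h2 (by positivity)

theorem V_of_not {X : Set ℂ} (hX : Sep X) {x p : ℂ} (hx : x ∈ X) (hD : p ∈ D x)
    (h : ∀ y ∈ X, y ≠ x → dist y x ≤ 2 → p ∉ HC x y 1 ∧ p ∉ HC x y (-1) ∧ cr (y - x) (p - x) ≠ 0) :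
    p ∈ V X x := by
  rw [mem_V_iff]
  intro y hy hyx
  by_contra hcon
  push Not at hcon
  have h1 := cap_HC hD hyx hcon
  have hw : 0 < ‖y - x‖ := norm_pos_iff.2 (sub_ne_zero.2 hyx)
  have hd : dist y x ≤ 2 := by
    rw [dist_eq_norm]
    have h2 := CEL_dt_le (p - x) (y - x)
    have h3 : ‖y - x‖ * ‖y - x‖ ≤ (2 * ‖p - x‖) * ‖y - x‖ := by nlinarith
    have h4 : ‖y - x‖ ≤ 2 * ‖p - x‖ := le_of_mul_le_mul_right h3 hw
    have h5 : ‖p - x‖ < 1 / √3 := mem_D.1 hD
    have h6 : 1 / √3 ≤ 1 := by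
      rw [div_le_one CEL_s3]
      exact Real.one_le_sqrt.2 (by norm_num)
    linarith
  obtain ⟨g1, g2, g3⟩ := h y hy hyx hd
  apply g3
  apply le_antisymm
  · by_contra hc
    push Not at hc
    exact g1 ⟨h1, by linarith⟩
  · by_contra hc
    push Not at hc
    exact g2 ⟨h1, by linarith⟩

/-- the cross product as a linear map -/
private def CEL_L (w : ℂ) : ℂ →ₗ[ℝ] ℝ where
  toFun v := cr w v
  map_add' u v := by simp [cr]; ring
  map_smul' t v := by simp [cr]; ring

theorem line_null {x y : ℂ} (h : y ≠ x) : volume {p : ℂ | cr (y - x) (p - x) = 0} = 0 := by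
  have hw : y - x ≠ 0 := sub_ne_zero.2 h
  have h1 : LinearMap.ker (CEL_L (y - x)) ≠ ⊤ := by
    intro htop
    have h2 : Complex.I * (y - x) ∈ LinearMap.ker (CEL_L (y - x)) := by
      rw [htop]; exact Submodule.mem_top
    rw [LinearMap.mem_ker] at h2
    have h3 : CEL_L (y - x) (Complex.I * (y - x)) = ‖y - x‖ ^ 2 := by
      rw [nsq]
      change cr (y - x) (Complex.I * (y - x)) = _
      simp [cr]
      ring
    rw [h3] at h2
    have h4 : 0 < ‖y - x‖ ^ 2 := pow_pos (norm_pos_iff.2 hw) 2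
    linarith
  have h2 : {p : ℂ | cr (y - x) (p - x) = 0} =
      (fun p => p + (-x)) ⁻¹' (LinearMap.ker (CEL_L (y - x)) : Set ℂ) := by
    ext p
    rw [mem_preimage]
    change cr (y - x) (p - x) = 0 ↔ cr (y - x) (p + -x) = 0
    rw [sub_eq_add_neg p x]
  rw [h2, measure_preimage_add_right]
  exact Measure.addHaar_submodule _ _ h1

private theorem CEL_cr_cont {f g : ℂ → ℂ} (hf : Continuous f) (hg : Continuous g) :
    Continuous (fun p => cr (f p) (g p)) := by
  unfold cr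
  fun_prop

private theorem CEL_dt_cont {f g : ℂ → ℂ} (hf : Continuous f) (hg : Continuous g) :
    Continuous (fun p => dt (f p) (g p)) := by
  unfold dt
  fun_prop

theorem isOpen_Cone (x a b : ℂ) : IsOpen (Cone x a b) :=
  (isOpen_lt continuous_const (CEL_cr_cont continuous_const (by fun_prop))).inter
    (isOpen_lt continuous_const (CEL_cr_cont (by fun_prop) continuous_const))

theorem isOpen_Tri (a b c : ℂ) : IsOpen (Tri a b c) :=
  (isOpen_lt continuous_const (CEL_cr_cont continuous_const (by fun_prop))).inter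
    ((isOpen_lt continuous_const (CEL_cr_cont continuous_const (by fun_prop))).inter
      (isOpen_lt continuous_const (CEL_cr_cont continuous_const (by fun_prop))))

theorem isOpen_HC (x y : ℂ) (ε : ℝ) : IsOpen (HC x y ε) :=
  (isOpen_lt (by fun_prop) (CEL_dt_cont (by fun_prop) continuous_const)).inter
    (isOpen_lt continuous_const (continuous_const.mul
      (CEL_cr_cont continuous_const (by fun_prop))))

theorem isOpen_D (x : ℂ) : IsOpen (D x) := Metric.isOpen_ball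

theorem meas_V {X : Set ℂ} (hX : X.Countable) (x : ℂ) : MeasurableSet (V X x) := by
  have h1 : V X x = ⋂ y ∈ X \ {x}, {p : ℂ | dist p x < dist p y} := by
    ext p
    simp only [mem_iInter, mem_diff, mem_singleton_iff, and_imp]
    rfl
  rw [h1]
  refine MeasurableSet.biInter (hX.mono diff_subset) fun y _ => ?_
  exact (isOpen_lt (by fun_prop) (by fun_prop)).measurableSet

theorem D_vol (x : ℂ) : volume.real (D x) = π / 3 := by
  rw [Measure.real, D, Complex.volume_ball, ENNReal.toReal_mul, ENNReal.toReal_pow,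
    ENNReal.toReal_ofReal (by positivity)]
  have h1 : (1 / √3 : ℝ) ^ 2 = 1 / 3 := by
    rw [div_pow, one_pow, Real.sq_sqrt (by norm_num)]
  rw [h1]
  have h2 : ((NNReal.pi : NNReal) : ENNReal).toReal = π := rfl
  rw [h2]
  ring

theorem V_disj {X : Set ℂ} {x y : ℂ} (hx : x ∈ X) (hy : y ∈ X) (hne : x ≠ y) : Disjoint (V X x) (V X y) := by
  rw [Set.disjoint_left]
  intro p hp hp'
  exact lt_asymm (hp y hy hne.symm) (hp' x hx hne)

end Pool.Agent.H20.AL
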