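import Pool.Agent.H20.AL.SPR

/-!
# CNH: a half cap is inside a cone with free boundary rays, or disjoint from it

* `HC x y ε` is convex (`q.w - k ‖q‖ > 0` with `k = √3/2 ‖w‖^2 ≥ 0` is convex, the half plane is convex), and closed under
  `p ↦ x + τ (p - x)`, `τ > 0`.
* `ray`: if `Free X x a`, `y ∈ X`, `y ≠ x`, `ε ≠ 0`, then no point `x + τ (a - x)`, `τ ≥ 0`, is in `HC x y ε` (`τ = 0`: strict inequality;
  `τ > 0`: dividing by `τ`, the direction `a - x` is in the cap of `y`, so `cr (a-x) (y-x) = 0`, and the second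
  condition fails).
* `cone_or`: suppose `p1 ∈ HC ∩ Cone` and `p2 ∈ HC`, `p2 ∉ Cone`.  The continuous function
  `f p = min (cr (a-x) (p-x)) (cr (p-x) (b-x))` is positive at `p1`, `≤ 0` at `p2`: it vanishes at a point `p` of the segment
  (intermediate value), which is in `HC` (convex).  With `u = a-x`, `v = b-x`, `cr u v > 0`, `q = p - x = λ u + μ v`
  (`μ = cr u q/cr u v`, `λ = cr q v/cr u v`) one of `λ, μ` is `0` and the other `≥ 0`: `p` is on one of the two rays:
  contradiction with `ray`.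
-/

set_option autoImplicit false

open MeasureTheory Set Real

noncomputable section

namespace Pool.Agent.H20.AL

theorem HC_convex (x y : ℂ) (ε : ℝ) : Convex ℝ (HC x y ε) := by
  intro p h₁ q h₂ s t hs ht hst
  obtain ⟨a1, a2⟩ := h₁
  obtain ⟨b1, b2⟩ := h₂
  have e : s • p + t • q - x = s • (p - x) + t • (q - x) := by
    have : x = (s + t) • x := by rw [hst, one_smul]
    conv_lhs => rw [this]
    module
  have n1 : ‖s • (p - x) + t • (q - x)‖ ≤ s * ‖p - x‖ + t * ‖q - x‖ := by
    refine (norm_add_le _ _).trans ?_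
    rw [norm_smul, norm_smul, Real.norm_of_nonneg hs, Real.norm_of_nonneg ht]
  have d1 : dt (s • (p - x) + t • (q - x)) (y - x) = s * dt (p - x) (y - x) + t * dt (q - x) (y - x) := by
    simp [dt]; ring
  have c1 : cr (y - x) (s • (p - x) + t • (q - x)) = s * cr (y - x) (p - x) + t * cr (y - x) (q - x) := by
    simp [cr]; ring
  have pos : ∀ {A B : ℝ}, 0 < A → 0 < B → 0 < s * A + t * B := by
    intro A B hA hB
    rcases eq_or_lt_of_le hs with h0 | h0
    · rw [← h0] at hst ⊢
      rw [zero_add] at hst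
      rw [hst]
      linarith
    · have := mul_pos h0 hA
      have := mul_nonneg ht hB.le
      linarith
  refine ⟨?_, ?_⟩
  · rw [e, d1]
    have h3 := pos (sub_pos.mpr a1) (sub_pos.mpr b1)
    have h4 : √3 / 2 * ‖s • (p - x) + t • (q - x)‖ * ‖y - x‖ ^ 2 ≤
        √3 / 2 * (s * ‖p - x‖ + t * ‖q - x‖) * ‖y - x‖ ^ 2 := by
      gcongr
    refine lt_of_le_of_lt h4 ?_
    linarith
  · rw [e, c1]
    have h3 := pos a2 b2
    linarith

theorem ray {X : Set ℂ} {x a y : ℂ} (hf : Free X x a) (hy : y ∈ X) (hyx : y ≠ x) (ε : ℝ) {τ : ℝ} (hτ : 0 ≤ τ) :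
    x + (τ : ℂ) * (a - x) ∉ HC x y ε := by
  rintro ⟨h1, h2⟩
  rw [add_sub_cancel_left] at h1 h2
  have d1 : dt ((τ : ℂ) * (a - x)) (y - x) = τ * dt (a - x) (y - x) := by
    simp [dt]; ring
  rw [d1, norm_mul, Complex.norm_real, Real.norm_of_nonneg hτ] at h1
  rw [cr_smul] at h2
  rcases eq_or_lt_of_le hτ with h0 | h0
  · rw [← h0] at h2
    simp at h2
  · have h3 : √3 / 2 * ‖a - x‖ * ‖y - x‖ ^ 2 < dt (a - x) (y - x) := by
      have h4 : τ * (√3 / 2 * ‖a - x‖ * ‖y - x‖ ^ 2) < τ * dt (a - x) (y - x) := by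
        linarith
      exact lt_of_mul_lt_mul_left h4 hτ
    have h4 := hf y hy hyx h3
    rw [cr_comm, h4] at h2
    simp at h2

theorem cone_or {X : Set ℂ} {x a b y : ℂ} (hab : 0 < cr (a - x) (b - x)) (ha : Free X x a) (hb : Free X x b)
    (hy : y ∈ X) (hyx : y ≠ x) (ε : ℝ) : HC x y ε ⊆ Cone x a b ∨ Disjoint (HC x y ε) (Cone x a b) := by
  by_cases hd : Disjoint (HC x y ε) (Cone x a b)
  · exact Or.inr hd
  left
  rw [Set.not_disjoint_iff] at hd
  obtain ⟨p1, hp1, hp1c⟩ := hd
  intro p2 hp2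
  by_contra hp2c
  set f : ℝ → ℝ := fun s => min (cr (a - x) ((1 - s) • p1 + s • p2 - x))
    (cr ((1 - s) • p1 + s • p2 - x) (b - x)) with hf
  have hcont : Continuous f := by
    rw [hf]
    refine Continuous.min ?_ ?_
    · unfold cr; fun_prop
    · unfold cr; fun_prop
  have hf0 : 0 < f 0 := by
    simp only [hf, sub_zero, one_smul, zero_smul, add_zero]
    exact lt_min hp1c.1 hp1c.2
  have hf1 : f 1 ≤ 0 := by
    simp only [hf, sub_self, one_smul, zero_smul, zero_add]
    by_contra h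
    push Not at h
    exact hp2c ⟨lt_of_lt_of_le h (min_le_left _ _), lt_of_lt_of_le h (min_le_right _ _)⟩
  obtain ⟨s, ⟨hs0, hs1⟩, hs⟩ := intermediate_value_Icc' (zero_le_one : (0 : ℝ) ≤ 1)
    hcont.continuousOn ⟨hf1, hf0.le⟩
  have hP : (1 - s) • p1 + s • p2 ∈ HC x y ε :=
    HC_convex x y ε hp1 hp2 (by linarith) hs0 (by ring)
  set q := (1 - s) • p1 + s • p2 - x with hq
  have hqx : x + q = (1 - s) • p1 + s • p2 := by rw [hq]; ring
  have hs' : min (cr (a - x) q) (cr q (b - x)) = 0 := hs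
  have key : ((cr (a - x) (b - x) : ℝ) : ℂ) * q =
      ((cr q (b - x) : ℝ) : ℂ) * (a - x) + ((cr (a - x) q : ℝ) : ℂ) * (b - x) := by
    apply Complex.ext
    · simp [cr]; ring
    · simp [cr]; ring
  have hab' : ((cr (a - x) (b - x) : ℝ) : ℂ) ≠ 0 := by exact_mod_cast hab.ne'
  rcases min_choice (cr (a - x) q) (cr q (b - x)) with h | h
  · rw [h] at hs'
    have h3 : 0 ≤ cr q (b - x) := by
      have := min_le_right (cr (a - x) q) (cr q (b - x))
      rw [h, hs'] at this
      exact this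
    rw [hs'] at key
    apply ray ha hy hyx ε (τ := cr q (b - x) / cr (a - x) (b - x)) (by positivity)
    have h4 : ((cr q (b - x) / cr (a - x) (b - x) : ℝ) : ℂ) * (a - x) = q := by
      push_cast
      rw [div_mul_eq_mul_div, div_eq_iff hab']
      rw [mul_comm q, key]
      simp
    rw [h4, hqx]
    exact hP
  · rw [h] at hs'
    have h3 : 0 ≤ cr (a - x) q := by
      have := min_le_left (cr (a - x) q) (cr q (b - x))
      rw [h, hs'] at this
      exact this
    rw [hs'] at key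
    apply ray hb hy hyx ε (τ := cr (a - x) q / cr (a - x) (b - x)) (by positivity)
    have h4 : ((cr (a - x) q / cr (a - x) (b - x) : ℝ) : ℂ) * (b - x) = q := by
      push_cast
      rw [div_mul_eq_mul_div, div_eq_iff hab']
      rw [mul_comm q, key]
      simp
    rw [h4, hqx]
    exact hP

end Pool.Agent.H20.AL
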