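import Pool.Agent.H20.AL.LCL
import Pool.Agent.H20.AL.HXA

/-!
# COR: the core of the accounting lemma

* `V_sub_big`: for `y ∈ Y`: `V X y ⊆ ⋃ σ ∈ S, Hex σ`: let `p ∈ V X y`, `p ∈ Hex σ`, `dist p σ < 1` (`hex_cover`).  If `σ ∉ S` then `σ ∈ X`, `σ ≠ y`
  (`dj`), `dist p y < dist p σ`, so `dist σ y < 2`, `y ∈ Lam` (`collar`) and `dist p σ ≤ dist p y` by definition of `Hex`: contradiction.
* `core`: the sets `V X y ∩ D y ∩ {p : p in no cone of C with apex y}`, `y ∈ Y`, and `P` are disjoint, measurable, and contained in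
  `⋃ σ ∈ S, Hex σ`, of area `≤ S.card * √3/2`.  `lcl` at every `y ∈ Y` (with the cones of apex `y`):
  `area P + Σ_y (√3/2 - kap Σ_{c at y} area) ≤ S.card √3/2`; `Y.card + 1 = S.card`.
-/

set_option autoImplicit false

open MeasureTheory Set Real

noncomputable section

namespace Pool.Agent.H20.AL

theorem Conf.countable {X : Set ℂ} {S Y : Finset ℂ} (h : Conf X S Y) : X.Countable := by
  rw [h.eq]
  exact (lam_countable.mono sdiff_subset).union Y.finite_toSet.countable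

theorem V_sub_big {X : Set ℂ} {S Y : Finset ℂ} (h : Conf X S Y) {y : ℂ} (hy : y ∈ Y) :
    V X y ⊆ ⋃ σ ∈ S, Hex σ := by
  intro p hp
  obtain ⟨σ, hσ, hpσ, hd⟩ := hex_cover p
  by_cases hS : σ ∈ S
  · exact mem_iUnion₂.2 ⟨σ, hS, hpσ⟩
  · exfalso
    have h1 : σ ∈ Lam \ (S : Set ℂ) := ⟨hσ, hS⟩
    have h2 : σ ∈ X := by
      rw [h.eq]
      exact Or.inl h1
    have h3 : σ ≠ y := by
      rintro rfl
      exact Set.disjoint_left.1 h.dj hy h1
    have h4 := hp σ h2 h3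
    have h5 : dist σ y < 2 := by
      have h6 := dist_triangle σ p y
      rw [dist_comm σ p] at h6
      linarith
    have h6 := h.collar σ h1 y hy h5
    exact absurd (hpσ y h6) (not_le.2 h4)

theorem COR_big (S : Finset ℂ) (hS : (S : Set ℂ) ⊆ Lam) :
    volume (⋃ σ ∈ S, Hex σ) ≤ ENNReal.ofReal (S.card * (√3 / 2)) := by
  refine (measure_biUnion_finset_le S _).trans ?_
  have h1 : ∑ σ ∈ S, volume (Hex σ) ≤ ∑ σ ∈ S, ENNReal.ofReal (√3 / 2) :=
    Finset.sum_le_sum fun σ hσ => hex_vol (hS hσ)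
  refine h1.trans ?_
  rw [Finset.sum_const, nsmul_eq_mul, ENNReal.ofReal_mul (by positivity), ENNReal.ofReal_natCast]

theorem core {X : Set ℂ} {S Y : Finset ℂ} (h : Conf X S Y) (C : Finset (ℂ × ℂ × ℂ))
    (hC : ∀ c ∈ C, 0 < cr (c.2.1 - c.1) (c.2.2 - c.1) ∧ Free X c.1 c.2.1 ∧ Free X c.1 c.2.2)
    (hCY : ∀ c ∈ C, c.1 ∈ Y) {P : Set ℂ} (hP : MeasurableSet P) (hPS : P ⊆ ⋃ σ ∈ S, Hex σ)
    (hPD : ∀ y ∈ Y, ∀ p ∈ P, p ∈ V X y → p ∈ D y → ∃ c ∈ C, c.1 = y ∧ p ∈ Cone c.1 c.2.1 c.2.2) :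
    volume.real P ≤ √3 / 2 + kap * ∑ c ∈ C, volume.real (Cone c.1 c.2.1 c.2.2 ∩ D c.1) := by
  classical
  have hYX : ∀ y ∈ Y, y ∈ X := by
    intro y hy
    rw [h.eq]
    exact Or.inr hy
  have hX : X.Countable := h.countable
  let Cy : ℂ → Finset (ℂ × ℂ) := fun y => (C.filter fun c => c.1 = y).image fun c => c.2
  have hCy : ∀ y (c : ℂ × ℂ), c ∈ Cy y ↔ (y, c) ∈ C := by
    intro y c
    simp only [Cy, Finset.mem_image, Finset.mem_filter]
    constructor
    · rintro ⟨c', ⟨h1, h2⟩, h3⟩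
      have h4 : c' = (y, c) := Prod.ext h2 h3
      rwa [← h4]
    · intro h1
      exact ⟨(y, c), ⟨h1, rfl⟩, rfl⟩
  let W : ℂ → Set ℂ := fun y => V X y ∩ D y ∩ {p | ∀ c ∈ Cy y, p ∉ Cone y c.1 c.2}
  have hWV : ∀ y, W y ⊆ V X y := fun y p hp => hp.1.1
  have hWm : ∀ y, MeasurableSet (W y) := by
    intro y
    refine ((meas_V hX y).inter (isOpen_D y).measurableSet).inter ?_
    have h1 : {p : ℂ | ∀ c ∈ Cy y, p ∉ Cone y c.1 c.2} = ⋂ c ∈ Cy y, (Cone y c.1 c.2)ᶜ := by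
      ext p
      simp
    rw [h1]
    exact Finset.measurableSet_biInter _ fun c _ => (isOpen_Cone y c.1 c.2).measurableSet.compl
  set B : Set ℂ := ⋃ σ ∈ S, Hex σ with hB
  have hBvol : volume B ≤ ENNReal.ofReal (S.card * (√3 / 2)) := COR_big S h.sub
  have hBfin : volume B ≠ ⊤ := ne_top_of_le_ne_top ENNReal.ofReal_ne_top hBvol
  have hBreal : volume.real B ≤ S.card * (√3 / 2) :=
    ENNReal.toReal_le_of_le_ofReal (by positivity) hBvol
  have hWB : ∀ y ∈ Y, W y ⊆ B := fun y hy => (hWV y).trans (V_sub_big h hy)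
  have hdis : (Y : Set ℂ).PairwiseDisjoint W := by
    intro y hy z hz hne
    exact (V_disj (hYX y hy) (hYX z hz) hne).mono (hWV y) (hWV z)
  have hU : volume.real (⋃ y ∈ Y, W y) = ∑ y ∈ Y, volume.real (W y) :=
    measureReal_biUnion_finset hdis (fun y _ => hWm y)
      (fun y hy => ne_top_of_le_ne_top hBfin (measure_mono (hWB y hy)))
  have hUB : (⋃ y ∈ Y, W y) ⊆ B := iUnion₂_subset hWB
  have hUm : MeasurableSet (⋃ y ∈ Y, W y) := Finset.measurableSet_biUnion _ fun y _ => hWm y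
  have hdP : Disjoint P (⋃ y ∈ Y, W y) := by
    rw [Set.disjoint_left]
    intro p hp hpU
    obtain ⟨y, hy, hpy⟩ := mem_iUnion₂.1 hpU
    obtain ⟨c, hc, hc1, hc2⟩ := hPD y hy p hp hpy.1.1 hpy.1.2
    refine hpy.2 c.2 ((hCy y c.2).2 ?_) ?_
    · rw [← hc1]
      exact hc
    · rw [← hc1]
      exact hc2
  have hsum : volume.real P + ∑ y ∈ Y, volume.real (W y) ≤ S.card * (√3 / 2) := by
    rw [← hU, ← measureReal_union hdP hUm (ne_top_of_le_ne_top hBfin (measure_mono hPS))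
      (ne_top_of_le_ne_top hBfin (measure_mono hUB))]
    exact (measureReal_mono (union_subset hPS hUB) hBfin).trans hBreal
  have hlcl : ∀ y ∈ Y, √3 / 2 - kap * ∑ c ∈ Cy y, volume.real (Cone y c.1 c.2 ∩ D y) ≤
      volume.real (W y) := by
    intro y hy
    exact lcl h.sep hX (hYX y hy) (Cy y) fun c hc => hC (y, c) ((hCy y c).1 hc)
  have hsum2 := Finset.sum_le_sum hlcl
  have hfib : ∑ y ∈ Y, ∑ c ∈ Cy y, volume.real (Cone y c.1 c.2 ∩ D y) =
      ∑ c ∈ C, volume.real (Cone c.1 c.2.1 c.2.2 ∩ D c.1) := by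
    rw [← Finset.sum_fiberwise_of_maps_to (s := C) (t := Y) (g := fun c => c.1) hCY]
    refine Finset.sum_congr rfl fun y _ => ?_
    rw [Finset.sum_image]
    · refine Finset.sum_congr rfl fun c hc => ?_
      rw [(Finset.mem_filter.1 hc).2]
    · intro c hc c' hc' heq
      have h1 : c.1 = y := (Finset.mem_filter.1 hc).2
      have h2 : c'.1 = y := (Finset.mem_filter.1 hc').2
      exact Prod.ext (h1.trans h2.symm) heq
  rw [Finset.sum_sub_distrib, Finset.sum_const, nsmul_eq_mul, ← Finset.mul_sum, hfib] at hsum2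
  have hcard : (S.card : ℝ) = Y.card + 1 := by
    rw [← h.card]
    push_cast
    ring
  rw [hcard] at hsum
  linarith

end Pool.Agent.H20.AL
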