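import Pool.Agent.H20.AL.Defs

/-!
# CRS: crossing edges; discs and triangles

* `stewart`: `o = a + s (c - a)`: `(1-s) ‖a-b‖^2 + s ‖c-b‖^2 = ‖o-b‖^2 + s (1-s) ‖c-a‖^2`.
* `cross4`: `o` on both segments `[a,c]` and `[b,d]`, the four distances `a b, b c, c d, d a` at least `1`: then `|ac|^2 + |bd|^2 ≥ 4`.
  With `o = a + s(c-a) = b + t(d-b)`, `p = |ac|`, `q = |bd|`: `stewart` (in `ac` from `b` and from `d`): `(t q)^2 + s(1-s) p^2 ≥ 1`,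
  `((1-t) q)^2 + s(1-s)p^2 ≥ 1`, and in `bd` from `a`, `c`: `(s p)^2 + t(1-t)q^2 ≥ 1`, `((1-s)p)^2 + t(1-t)q^2 ≥ 1`.  Sum: `p^2 + q^2 ≥ 4`.
* `exit_edge`: `p` in the closed triangle, `w` not: some point of the segment `[p,w]` is on an edge.  Barycentric coordinates
  `l1 = cr (c-b) (p-b)/Δ, l2 = cr (a-c) (p-c)/Δ, l3 = cr (b-a) (p-a)/Δ` are affine along the segment; take the last
  parameter `τ` with all three `≥ 0` (one coordinate is `0` there, and it is negative at `w`).  The conclusion says: edge `ab` with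
  `w` strictly on the outer side, etc.
* `disc_tri`: if `y` has distance `≥ 1` from `a, b, c`, edges `^2 ≤ 8/3`, then `D y ∩ Tri a b c = ∅`.  Let `p ∈ Tri`, `dist p y < 1/√3`.
  If `y` is in the closed triangle: `Σ l_i ‖y - v_i‖^2 = Σ_{i<j} l_i l_j ‖v_i - v_j‖^2 ≤ (8/3)(1/3) < 1`, contradiction.  Otherwise
  `exit_edge`: `o = a + s(b-a) ∈ [p,y]` and by `stewart` `‖o - y‖^2 ≥ 1 - s(1-s) 8/3 ≥ 1/3`; but `‖o-y‖ ≤ ‖p-y‖ < 1/√3`.
-/

set_option autoImplicit false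

open MeasureTheory Set Real

noncomputable section

namespace Pool.Agent.H20.AL

/-- closed triangle -/
def CTri (a b c : ℂ) : Set ℂ :=
  {p | 0 ≤ cr (b - a) (p - a) ∧ 0 ≤ cr (c - b) (p - b) ∧ 0 ≤ cr (a - c) (p - c)}

theorem stewart (a b c : ℂ) (s : ℝ) :
    (1 - s) * ‖a - b‖ ^ 2 + s * ‖c - b‖ ^ 2 = ‖a + (s : ℂ) * (c - a) - b‖ ^ 2 + s * (1 - s) * ‖c - a‖ ^ 2 := by
  rw [nsq, nsq, nsq, nsq]
  simp
  ring

theorem CRS_sm (s : ℝ) (u : ℂ) : ‖(s : ℂ) * u‖ ^ 2 = s ^ 2 * ‖u‖ ^ 2 := by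
  rw [nsq, nsq]
  simp
  ring

theorem CRS_one {a b : ℂ} (h : 1 ≤ dist a b) : 1 ≤ ‖a - b‖ ^ 2 := by
  rw [dist_eq_norm] at h
  nlinarith

theorem CRS_one' {a b : ℂ} (h : 1 ≤ dist a b) : 1 ≤ ‖b - a‖ ^ 2 := by
  rw [dist_comm] at h
  exact CRS_one h

theorem cross4 {a b c d : ℂ} {s t : ℝ} (hs0 : 0 ≤ s) (hs1 : s ≤ 1) (ht0 : 0 ≤ t) (ht1 : t ≤ 1)
    (ho : a + (s : ℂ) * (c - a) = b + (t : ℂ) * (d - b)) (hab : 1 ≤ dist a b) (hbc : 1 ≤ dist b c)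
    (hcd : 1 ≤ dist c d) (hda : 1 ≤ dist d a) : 4 ≤ ‖c - a‖ ^ 2 + ‖d - b‖ ^ 2 := by
  have e1 := stewart a b c s
  have e2 := stewart a d c s
  have e3 := stewart b a d t
  have e4 := stewart b c d t
  have f1 : a + (s : ℂ) * (c - a) - b = (t : ℂ) * (d - b) := by rw [ho]; ring
  have f2 : a + (s : ℂ) * (c - a) - d = ((t - 1 : ℝ) : ℂ) * (d - b) := by
    rw [ho]
    push_cast
    ring
  have f3 : b + (t : ℂ) * (d - b) - a = (s : ℂ) * (c - a) := by rw [← ho]; ring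
  have f4 : b + (t : ℂ) * (d - b) - c = ((s - 1 : ℝ) : ℂ) * (c - a) := by
    rw [← ho]
    push_cast
    ring
  rw [f1, CRS_sm] at e1
  rw [f2, CRS_sm] at e2
  rw [f3, CRS_sm] at e3
  rw [f4, CRS_sm] at e4
  have g1 := CRS_one hab
  have g2 := CRS_one' hbc
  have g3 := CRS_one hcd
  have g4 := CRS_one' hda
  have g5 := CRS_one' hab
  have g6 := CRS_one hbc
  have g7 := CRS_one' hcd
  have g8 := CRS_one hda
  have hs' : 0 ≤ 1 - s := by linarith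
  have ht' : 0 ≤ 1 - t := by linarith
  have h1 : 1 ≤ (1 - s) * ‖a - b‖ ^ 2 + s * ‖c - b‖ ^ 2 := by
    nlinarith [mul_le_mul_of_nonneg_left g1 hs', mul_le_mul_of_nonneg_left g2 hs0]
  have h2 : 1 ≤ (1 - s) * ‖a - d‖ ^ 2 + s * ‖c - d‖ ^ 2 := by
    nlinarith [mul_le_mul_of_nonneg_left g4 hs', mul_le_mul_of_nonneg_left g3 hs0]
  have h3 : 1 ≤ (1 - t) * ‖b - a‖ ^ 2 + t * ‖d - a‖ ^ 2 := by
    nlinarith [mul_le_mul_of_nonneg_left g5 ht', mul_le_mul_of_nonneg_left g8 ht0]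
  have h4 : 1 ≤ (1 - t) * ‖b - c‖ ^ 2 + t * ‖d - c‖ ^ 2 := by
    nlinarith [mul_le_mul_of_nonneg_left g6 ht', mul_le_mul_of_nonneg_left g7 ht0]
  nlinarith

theorem CRS_last (P W : Fin 3 → ℝ) (hP : ∀ i, 0 ≤ P i) (hW : ∃ i, W i < 0) :
    ∃ i, W i < 0 ∧ ∃ τ : ℝ, 0 ≤ τ ∧ τ ≤ 1 ∧ (1 - τ) * P i + τ * W i = 0 ∧
      ∀ j, 0 ≤ (1 - τ) * P j + τ * W j := by
  classical
  obtain ⟨i0, hi0⟩ := hW
  obtain ⟨i, hi, hmin⟩ := Finset.exists_min_image (Finset.univ.filter fun i => W i < 0)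
    (fun i => P i / (P i - W i)) ⟨i0, Finset.mem_filter.2 ⟨Finset.mem_univ _, hi0⟩⟩
  have hWi : W i < 0 := (Finset.mem_filter.1 hi).2
  have hd : 0 < P i - W i := by have := hP i; linarith
  have h0 : 0 ≤ P i / (P i - W i) := div_nonneg (hP i) hd.le
  have h1 : P i / (P i - W i) ≤ 1 := by
    rw [div_le_one hd]
    linarith
  refine ⟨i, hWi, P i / (P i - W i), h0, h1, ?_, ?_⟩
  · field_simp
    ring
  · intro j
    by_cases hj : W j < 0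
    · have hdj : 0 < P j - W j := by have := hP j; linarith
      have h2 := hmin j (Finset.mem_filter.2 ⟨Finset.mem_univ _, hj⟩)
      rw [le_div_iff₀ hdj] at h2
      nlinarith
    · push Not at hj
      have h3 := mul_nonneg (sub_nonneg.2 h1) (hP j)
      have h4 := mul_nonneg h0 hj
      linarith

theorem CRS_bary (a b c z : ℂ) :
    ((cr (b - a) (c - a) : ℝ) : ℂ) * z = (cr (c - b) (z - b) : ℂ) * a +
      (cr (a - c) (z - c) : ℂ) * b + (cr (b - a) (z - a) : ℂ) * c := by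
  apply Complex.ext
  · simp [cr]
    ring
  · simp [cr]
    ring

theorem CRS_sum (a b c z : ℂ) : cr (c - b) (z - b) + cr (a - c) (z - c) + cr (b - a) (z - a) =
    cr (b - a) (c - a) := by
  simp [cr]
  ring

theorem CRS_aff (u a p w : ℂ) (τ : ℝ) : cr u (p + (τ : ℂ) * (w - p) - a) =
    (1 - τ) * cr u (p - a) + τ * cr u (w - a) := by
  simp [cr]
  ring

theorem CRS_pt {a b c z : ℂ} (h : 0 < cr (b - a) (c - a)) (h1 : cr (b - a) (z - a) = 0)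
    (h2 : 0 ≤ cr (c - b) (z - b)) (h3 : 0 ≤ cr (a - c) (z - c)) :
    ∃ s : ℝ, 0 ≤ s ∧ s ≤ 1 ∧ z = a + (s : ℂ) * (b - a) := by
  have hs := CRS_sum a b c z
  rw [h1] at hs
  refine ⟨cr (a - c) (z - c) / cr (b - a) (c - a), div_nonneg h3 h.le, ?_, ?_⟩
  · rw [div_le_one h]
    linarith
  · have hb := CRS_bary a b c z
    rw [h1] at hb
    have hne : ((cr (b - a) (c - a) : ℝ) : ℂ) ≠ 0 := Complex.ofReal_ne_zero.2 h.ne'
    have h4 : ((cr (c - b) (z - b) : ℝ) : ℂ) = (cr (b - a) (c - a) : ℂ) -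
        (cr (a - c) (z - c) : ℂ) := by
      rw [← Complex.ofReal_sub]
      congr 1
      linarith
    rw [h4] at hb
    rw [Complex.ofReal_div]
    field_simp
    rw [mul_comm z]
    rw [hb]
    push_cast
    ring

theorem exit_edge {a b c p w : ℂ} (h : 0 < cr (b - a) (c - a)) (hp : p ∈ CTri a b c) (hw : w ∉ CTri a b c) :
    ∃ τ s : ℝ, 0 ≤ τ ∧ τ ≤ 1 ∧ 0 ≤ s ∧ s ≤ 1 ∧
      ((cr (b - a) (w - a) < 0 ∧ p + (τ : ℂ) * (w - p) = a + (s : ℂ) * (b - a)) ∨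
       (cr (c - b) (w - b) < 0 ∧ p + (τ : ℂ) * (w - p) = b + (s : ℂ) * (c - b)) ∨
       (cr (a - c) (w - c) < 0 ∧ p + (τ : ℂ) * (w - p) = c + (s : ℂ) * (a - c))) := by
  obtain ⟨hp1, hp2, hp3⟩ := hp
  obtain ⟨i, hi, τ, hτ0, hτ1, hz, hall⟩ := CRS_last
    ![cr (b - a) (p - a), cr (c - b) (p - b), cr (a - c) (p - c)]
    ![cr (b - a) (w - a), cr (c - b) (w - b), cr (a - c) (w - c)]
    (by intro i; fin_cases i <;> simpa) (by
      by_contra hcon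
      push Not at hcon
      exact hw ⟨hcon 0, hcon 1, hcon 2⟩)
  have g1 : 0 ≤ cr (b - a) (p + (τ : ℂ) * (w - p) - a) := by
    rw [CRS_aff]
    exact hall 0
  have g2 : 0 ≤ cr (c - b) (p + (τ : ℂ) * (w - p) - b) := by
    rw [CRS_aff]
    exact hall 1
  have g3 : 0 ≤ cr (a - c) (p + (τ : ℂ) * (w - p) - c) := by
    rw [CRS_aff]
    exact hall 2
  have hb : 0 < cr (c - b) (a - b) := by
    have : cr (c - b) (a - b) = cr (b - a) (c - a) := by simp [cr]; ring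
    rwa [this]
  have hc : 0 < cr (a - c) (b - c) := by
    have : cr (a - c) (b - c) = cr (b - a) (c - a) := by simp [cr]; ring
    rwa [this]
  fin_cases i
  · obtain ⟨s, hs0, hs1, hs⟩ := CRS_pt h (z := p + (τ : ℂ) * (w - p))
      (by rw [CRS_aff]; exact hz) g2 g3
    exact ⟨τ, s, hτ0, hτ1, hs0, hs1, Or.inl ⟨hi, hs⟩⟩
  · obtain ⟨s, hs0, hs1, hs⟩ := CRS_pt hb (z := p + (τ : ℂ) * (w - p))
      (by rw [CRS_aff]; exact hz) g3 g1
    exact ⟨τ, s, hτ0, hτ1, hs0, hs1, Or.inr (Or.inl ⟨hi, hs⟩)⟩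
  · obtain ⟨s, hs0, hs1, hs⟩ := CRS_pt hc (z := p + (τ : ℂ) * (w - p))
      (by rw [CRS_aff]; exact hz) g1 g2
    exact ⟨τ, s, hτ0, hτ1, hs0, hs1, Or.inr (Or.inr ⟨hi, hs⟩)⟩

theorem CRS_far {a b p y : ℂ} {τ s : ℝ} (hτ0 : 0 ≤ τ) (hτ1 : τ ≤ 1) (hs0 : 0 ≤ s) (hs1 : s ≤ 1)
    (ho : p + (τ : ℂ) * (y - p) = a + (s : ℂ) * (b - a)) (ha : 1 ≤ dist y a) (hb : 1 ≤ dist y b)
    (hab : dist a b ^ 2 ≤ 8 / 3) (hp : ‖p - y‖ ^ 2 < 1 / 3) : False := by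
  have e1 := stewart a y b s
  have f1 : a + (s : ℂ) * (b - a) - y = ((1 - τ : ℝ) : ℂ) * (p - y) := by
    rw [← ho]
    push_cast
    ring
  rw [f1, CRS_sm] at e1
  have g1 := CRS_one' ha
  have g2 := CRS_one' hb
  rw [dist_comm, dist_eq_norm] at hab
  have hs' : 0 ≤ 1 - s := by linarith
  have h1 : 1 ≤ (1 - s) * ‖a - y‖ ^ 2 + s * ‖b - y‖ ^ 2 := by
    nlinarith [mul_le_mul_of_nonneg_left g1 hs', mul_le_mul_of_nonneg_left g2 hs0]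
  have h2 : s * (1 - s) * ‖b - a‖ ^ 2 ≤ 2 / 3 := by
    have h3 : s * (1 - s) ≤ 1 / 4 := by nlinarith [sq_nonneg (s - 1 / 2)]
    have h4 : 0 ≤ s * (1 - s) := mul_nonneg hs0 hs'
    calc s * (1 - s) * ‖b - a‖ ^ 2 ≤ 1 / 4 * (8 / 3) :=
          mul_le_mul h3 hab (by positivity) (by norm_num)
      _ = 2 / 3 := by norm_num
  have h5 : (1 - τ) ^ 2 * ‖p - y‖ ^ 2 < 1 / 3 := by
    have h6 : (1 - τ) ^ 2 ≤ 1 := by nlinarith
    have h7 : 0 ≤ ‖p - y‖ ^ 2 := by positivity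
    nlinarith
  linarith

theorem disc_tri {a b c y : ℂ} (h : 0 < cr (b - a) (c - a)) (hab : dist a b ^ 2 ≤ 8 / 3)
    (hbc : dist b c ^ 2 ≤ 8 / 3) (hca : dist c a ^ 2 ≤ 8 / 3) (ha : 1 ≤ dist y a) (hb : 1 ≤ dist y b)
    (hc : 1 ≤ dist y c) : Disjoint (D y) (Tri a b c) := by
  rw [Set.disjoint_left]
  intro p hpD hpT
  have hp : ‖p - y‖ ^ 2 < 1 / 3 := by
    rw [mem_D] at hpD
    have h1 : (1 / √3) ^ 2 = 1 / 3 := by
      rw [div_pow, one_pow, Real.sq_sqrt (by norm_num)]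
    rw [← h1]
    exact pow_lt_pow_left₀ hpD (norm_nonneg _) (by norm_num)
  by_cases hy : y ∈ CTri a b c
  · obtain ⟨y1, y2, y3⟩ := hy
    have hΔ := CRS_sum a b c y
    have hbar := CRS_bary a b c y
    set L1 := cr (b - a) (y - a)
    set L2 := cr (c - b) (y - b)
    set L3 := cr (a - c) (y - c)
    set Δ := cr (b - a) (c - a)
    -- barycentric coordinates
    obtain ⟨l1, l2, l3, hl1, hl2, hl3, hsum, hyl⟩ : ∃ l1 l2 l3 : ℝ, 0 ≤ l1 ∧ 0 ≤ l2 ∧ 0 ≤ l3 ∧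
        l1 + l2 + l3 = 1 ∧ y = (l1 : ℂ) * a + (l2 : ℂ) * b + (l3 : ℂ) * c := by
      refine ⟨L2 / Δ, L3 / Δ, L1 / Δ, div_nonneg y2 h.le, div_nonneg y3 h.le,
        div_nonneg y1 h.le, ?_, ?_⟩
      · field_simp
        linarith
      · have hne : (Δ : ℂ) ≠ 0 := Complex.ofReal_ne_zero.2 h.ne'
        push_cast
        field_simp
        rw [mul_comm y]
        rw [hbar]
    have key : l1 * ‖y - a‖ ^ 2 + l2 * ‖y - b‖ ^ 2 + l3 * ‖y - c‖ ^ 2 =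
        l1 * l2 * ‖a - b‖ ^ 2 + l2 * l3 * ‖b - c‖ ^ 2 + l3 * l1 * ‖c - a‖ ^ 2 := by
      have h1 : l1 = 1 - l2 - l3 := by linarith
      rw [hyl, h1]
      simp only [nsq]
      simp
      ring
    have g1 := CRS_one ha
    have g2 := CRS_one hb
    have g3 := CRS_one hc
    rw [dist_eq_norm] at hab hbc hca
    have k1 := mul_le_mul_of_nonneg_left g1 hl1
    have k2 := mul_le_mul_of_nonneg_left g2 hl2
    have k3 := mul_le_mul_of_nonneg_left g3 hl3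
    have k4 := mul_le_mul_of_nonneg_left hab (mul_nonneg hl1 hl2)
    have k5 := mul_le_mul_of_nonneg_left hbc (mul_nonneg hl2 hl3)
    have k6 := mul_le_mul_of_nonneg_left hca (mul_nonneg hl3 hl1)
    have k7 : l1 * l2 + l2 * l3 + l3 * l1 ≤ 1 / 3 := by
      nlinarith [sq_nonneg (l1 - l2), sq_nonneg (l2 - l3), sq_nonneg (l3 - l1)]
    nlinarith
  · have hpC : p ∈ CTri a b c := ⟨hpT.1.le, hpT.2.1.le, hpT.2.2.le⟩
    obtain ⟨τ, s, hτ0, hτ1, hs0, hs1, ho | ho | ho⟩ := exit_edge h hpC hy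
    · exact CRS_far hτ0 hτ1 hs0 hs1 ho.2 ha hb hab hp
    · exact CRS_far hτ0 hτ1 hs0 hs1 ho.2 hb hc hbc hp
    · exact CRS_far hτ0 hτ1 hs0 hs1 ho.2 hc ha hca hp

end Pool.Agent.H20.AL
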