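import Mathlib

/-!
# Accounting lemma for packings of the plane (MP_591ade_co, p = 6; task T4 of /team-store/H78_p6.md)

Definitions.  `r = 1/√3` is the circumradius of the unit triangle, `kap = 3√3/(2π)`: the cell of a point `x` cut with the
disc `D x` of radius `r` has area at least `kap * area (disc ∩ cone)` in every cone bounded by free rays.
-/

set_option autoImplicit false

open MeasureTheory Set

noncomputable section

namespace Pool.Agent.H20.AL

/-- cross product -/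
def cr (u v : ℂ) : ℝ := u.re * v.im - u.im * v.re
/-- inner product -/
def dt (u v : ℂ) : ℝ := u.re * v.re + u.im * v.im

/-- packing -/
def Sep (X : Set ℂ) : Prop := ∀ x ∈ X, ∀ y ∈ X, x ≠ y → 1 ≤ dist x y

/-- open Voronoi cell -/
def V (X : Set ℂ) (x : ℂ) : Set ℂ := {p | ∀ y ∈ X, y ≠ x → dist p x < dist p y}

/-- disc of radius `1/√3` -/
def D (x : ℂ) : Set ℂ := Metric.ball x (1 / √3)

/-- open cone with apex `x`, between the rays towards `a` and `b` (counterclockwise, angle `< π`) -/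
def Cone (x a b : ℂ) : Set ℂ := {p | 0 < cr (a - x) (p - x) ∧ 0 < cr (p - x) (b - x)}

/-- open triangle (positively oriented) -/
def Tri (a b c : ℂ) : Set ℂ :=
  {p | 0 < cr (b - a) (p - a) ∧ 0 < cr (c - b) (p - b) ∧ 0 < cr (a - c) (p - c)}

/-- half cap of `y` at `x`, on the side `ε = ± 1`: the directions (from `x`) which meet the disc of
radius `1/√3` beyond the bisector of `x` and `y` -/
def HC (x y : ℂ) (ε : ℝ) : Set ℂ :=
  {p | √3 / 2 * ‖p - x‖ * ‖y - x‖ ^ 2 < dt (p - x) (y - x) ∧ 0 < ε * cr (y - x) (p - x)}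

/-- the direction from `x` to `a` is in no cap of a point `y` of `X`, except if `y` is on this ray -/
def Free (X : Set ℂ) (x a : ℂ) : Prop :=
  ∀ y ∈ X, y ≠ x → √3 / 2 * ‖a - x‖ * ‖y - x‖ ^ 2 < dt (a - x) (y - x) → cr (a - x) (y - x) = 0

/-- the constant: `kap * area (D x) = √3/2` -/
def kap : ℝ := 3 * √3 / (2 * Real.pi)

/-- the triangular lattice (as in the frozen statement) -/
def Lam : Set ℂ :=
  {z : ℂ | ∃ m n : ℤ, z = (m : ℂ) + (n : ℂ) * ((1/2 : ℂ) + ((Real.sqrt 3 / 2 : ℝ) : ℂ) * Complex.I)}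

/-- closed lattice hexagon -/
def Hex (σ : ℂ) : Set ℂ := {p | ∀ τ ∈ Lam, dist p σ ≤ dist p τ}

/-- the packing is the lattice outside the finite set `S`, and consists of the finite set `Y` inside, with one
point less -/
structure Conf (X : Set ℂ) (S Y : Finset ℂ) : Prop where
  sep : Sep X
  sub : (S : Set ℂ) ⊆ Lam
  eq : X = (Lam \ S) ∪ Y
  card : Y.card + 1 = S.card
  dj : Disjoint (Y : Set ℂ) (Lam \ S)
  collar : ∀ σ ∈ Lam \ (S : Set ℂ), ∀ y ∈ Y, dist σ y < 2 → y ∈ Lam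

/-- the corners of a triangle, as triples (apex, right ray, left ray) -/
def corners (T : ℂ × ℂ × ℂ) : List (ℂ × ℂ × ℂ) :=
  [(T.1, T.2.1, T.2.2), (T.2.1, T.2.2, T.1), (T.2.2, T.1, T.2.1)]

/-! ### elementary facts -/

theorem cr_self (u : ℂ) : cr u u = 0 := by unfold cr; ring
theorem cr_comm (u v : ℂ) : cr u v = -cr v u := by unfold cr; ring
theorem cr_add (u v w : ℂ) : cr u (v + w) = cr u v + cr u w := by simp [cr]; ring
theorem cr_smul (u v : ℂ) (t : ℝ) : cr u (t * v) = t * cr u v := by simp [cr]; ring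
theorem dt_comm (u v : ℂ) : dt u v = dt v u := by unfold dt; ring
theorem nsq (u : ℂ) : ‖u‖ ^ 2 = u.re ^ 2 + u.im ^ 2 := by
  rw [← Complex.normSq_eq_norm_sq, Complex.normSq_apply]; ring
theorem dt_self (u : ℂ) : dt u u = ‖u‖ ^ 2 := by rw [nsq]; unfold dt; ring
theorem lag (u v : ℂ) : dt u v ^ 2 + cr u v ^ 2 = ‖u‖ ^ 2 * ‖v‖ ^ 2 := by
  rw [nsq, nsq]; unfold dt cr; ring
theorem dist_sq (p y x : ℂ) : dist p y ^ 2 = dist p x ^ 2 - 2 * dt (p - x) (y - x) + ‖y - x‖ ^ 2 := by
  rw [dist_eq_norm, dist_eq_norm, nsq, nsq, nsq]; simp [dt]; ring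

theorem mem_D {x p : ℂ} : p ∈ D x ↔ ‖p - x‖ < 1 / √3 := by
  rw [D, Metric.mem_ball, dist_eq_norm]

theorem kap_pos : 0 < kap := by unfold kap; positivity

end Pool.Agent.H20.AL
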