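import Pool.Agent.H20.AL.SEC

/-!
# HCP: the half cap inequality

`hcap`: if `1 ≤ ‖y - x‖` then, in the cone `HC x y ε`, the part of the disc `D x` before the bisector has area at least `kap`
times the area of the whole part of the disc.
Proof.  Translate `x` to `0`, rotate `y - x` to the positive real number `ℓ = ‖y - x‖` (multiplication by a unit complex
number, `rotation`, is measure preserving) and, if `ε = -1`, apply complex conjugation (`Complex.conjLIE`).  Then the cone is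
`{q : (√3/2) ‖q‖ ℓ < q.re ∧ 0 < q.im}`.  If `√3/2 * ℓ ≥ 1` it is empty (`q.re ≤ ‖q‖`).  Otherwise put `cos t = √3/2 * ℓ`,
`0 < t ≤ π/6`.  `D 0 = {‖q‖ < 1/√3}`; the first area is `sector` : `(1/3) t / 2`.  The second set is `{q.re < ℓ/2}` in the cone
(there `‖q‖ < q.re/cos t < (ℓ/2)/cos t = 1/√3` automatically): area `(ℓ/2)^2 tan t/2 = (1/3) cos t ^ 2 tan t / 2 = (1/6) sin t cos t`.
`sin_conc`.
-/

set_option autoImplicit false

open MeasureTheory Set Real

noncomputable section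

namespace Pool.Agent.H20.AL

private theorem HCP_T (x u : ℂ) (hu : ‖u‖ = 1) (ε : ℝ) (hε : ε = 1 ∨ ε = -1) :
    ∃ T : ℂ → ℂ, MeasurePreserving T volume volume ∧ ∀ q, dt (T q - x) u = q.re ∧
      ε * cr u (T q - x) = q.im ∧ ‖T q - x‖ = ‖q‖ := by
  have hu2 : u.re ^ 2 + u.im ^ 2 = 1 := by rw [← nsq, hu]; norm_num
  set c : Circle := ⟨u, by simp [Submonoid.unitSphere, hu]⟩ with hc
  have hrot : ∀ q : ℂ, rotation c q = u * q := fun q => by
    rw [rotation_apply]
  have hadd : MeasurePreserving (fun q : ℂ => x + q) volume volume := measurePreserving_add_left _ x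
  have hrotm : MeasurePreserving (rotation c) volume volume :=
    LinearIsometryEquiv.measurePreserving (rotation c)
  have hconj : MeasurePreserving Complex.conjLIE volume volume :=
    LinearIsometryEquiv.measurePreserving Complex.conjLIE
  rcases hε with hε | hε
  · refine ⟨(fun q : ℂ => x + q) ∘ rotation c, hadd.comp hrotm, fun q => ?_⟩
    simp only [Function.comp, hrot, add_sub_cancel_left]
    refine ⟨?_, ?_, ?_⟩
    · unfold dt
      simp only [Complex.mul_re, Complex.mul_im]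
      linear_combination q.re * hu2
    · rw [hε]
      unfold cr
      simp only [Complex.mul_re, Complex.mul_im]
      linear_combination q.im * hu2
    · rw [norm_mul, hu, one_mul]
  · refine ⟨(fun q : ℂ => x + q) ∘ rotation c ∘ Complex.conjLIE, hadd.comp (hrotm.comp hconj),
      fun q => ?_⟩
    simp only [Function.comp, hrot, add_sub_cancel_left, Complex.conjLIE_apply]
    refine ⟨?_, ?_, ?_⟩
    · unfold dt
      simp only [Complex.mul_re, Complex.mul_im, Complex.conj_re, Complex.conj_im]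
      linear_combination q.re * hu2
    · rw [hε]
      unfold cr
      simp only [Complex.mul_re, Complex.mul_im, Complex.conj_re, Complex.conj_im]
      linear_combination q.im * hu2
    · rw [norm_mul, hu, one_mul, Complex.norm_conj]

private theorem HCP_open (x y : ℂ) (ε : ℝ) : IsOpen (HC x y ε) := by
  have h1 : IsOpen {p : ℂ | √3 / 2 * ‖p - x‖ * ‖y - x‖ ^ 2 < dt (p - x) (y - x)} := by
    refine isOpen_lt (by fun_prop) ?_
    unfold dt
    fun_prop
  have h2 : IsOpen {p : ℂ | 0 < ε * cr (y - x) (p - x)} := by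
    refine isOpen_lt continuous_const ?_
    unfold cr
    fun_prop
  exact h1.inter h2

private theorem HCP_open2 (x y : ℂ) : IsOpen {p : ℂ | 2 * dt (p - x) (y - x) < ‖y - x‖ ^ 2} := by
  refine isOpen_lt ?_ continuous_const
  unfold dt
  fun_prop

theorem hcap (x y : ℂ) (h1 : 1 ≤ ‖y - x‖) (ε : ℝ) (hε : ε = 1 ∨ ε = -1) :
    kap * volume.real (HC x y ε ∩ D x) ≤
      volume.real (HC x y ε ∩ D x ∩ {p | 2 * dt (p - x) (y - x) < ‖y - x‖ ^ 2}) := by
  set l : ℝ := ‖y - x‖ with hl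
  have hl0 : 0 < l := by linarith
  set u : ℂ := (y - x) / l with hu
  have hlc : (l : ℂ) ≠ 0 := Complex.ofReal_ne_zero.2 hl0.ne'
  have hun : ‖u‖ = 1 := by
    rw [hu, norm_div, Complex.norm_real, Real.norm_of_nonneg hl0.le, ← hl, div_self hl0.ne']
  have hyx : y - x = (l : ℂ) * u := by
    rw [hu]; field_simp
  obtain ⟨T, hT, hTq⟩ := HCP_T x u hun ε hε
  have hdt : ∀ p : ℂ, dt (p - x) (y - x) = l * dt (p - x) u := by
    intro p
    rw [hyx]
    simp [dt]
    ring
  have hcr : ∀ p : ℂ, cr (y - x) (p - x) = l * cr u (p - x) := by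
    intro p
    rw [hyx]
    simp [cr]
    ring
  have hs3 : (0:ℝ) < √3 := by positivity
  have hs32 : √3 * √3 = 3 := Real.mul_self_sqrt (by norm_num)
  have hmemHC : ∀ q : ℂ, T q ∈ HC x y ε ↔ ‖q‖ * (√3 / 2 * l) < q.re ∧ 0 < q.im := by
    intro q
    obtain ⟨e1, e2, e3⟩ := hTq q
    show (√3 / 2 * ‖T q - x‖ * ‖y - x‖ ^ 2 < dt (T q - x) (y - x) ∧ 0 < ε * cr (y - x) (T q - x)) ↔ _
    rw [hdt, hcr, e1, e3, ← hl]
    have h3 : ε * (l * cr u (T q - x)) = l * q.im := by rw [← e2]; ring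
    rw [h3]
    have h4 : √3 / 2 * ‖q‖ * l ^ 2 = l * (‖q‖ * (√3 / 2 * l)) := by ring
    rw [h4, mul_lt_mul_iff_right₀ hl0, mul_pos_iff_of_pos_left hl0]
  have hmemD : ∀ q : ℂ, T q ∈ D x ↔ ‖q‖ < 1 / √3 := by
    intro q
    rw [mem_D, (hTq q).2.2]
  have hmemB : ∀ q : ℂ, T q ∈ {p | 2 * dt (p - x) (y - x) < l ^ 2} ↔ q.re < l / 2 := by
    intro q
    show 2 * dt (T q - x) (y - x) < l ^ 2 ↔ _
    rw [hdt, (hTq q).1]
    constructor
    · intro h
      have h5 : l * (2 * q.re) < l * l := by nlinarith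
      have := lt_of_mul_lt_mul_left h5 hl0.le
      linarith
    · intro h
      have : l * q.re < l * (l / 2) := mul_lt_mul_of_pos_left h hl0
      nlinarith
  have hm1 : MeasurableSet (HC x y ε ∩ D x) :=
    ((HCP_open x y ε).inter Metric.isOpen_ball).measurableSet
  have hm2 : MeasurableSet (HC x y ε ∩ D x ∩ {p | 2 * dt (p - x) (y - x) < l ^ 2}) :=
    hm1.inter (HCP_open2 x y).measurableSet
  have hv1 : volume (HC x y ε ∩ D x) =
      volume {q : ℂ | (‖q‖ * (√3 / 2 * l) < q.re ∧ 0 < q.im) ∧ ‖q‖ < 1 / √3} := by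
    rw [← hT.measure_preimage hm1.nullMeasurableSet]
    congr 1
    ext q
    exact and_congr (hmemHC q) (hmemD q)
  have hv2 : volume (HC x y ε ∩ D x ∩ {p | 2 * dt (p - x) (y - x) < l ^ 2}) =
      volume {q : ℂ | ((‖q‖ * (√3 / 2 * l) < q.re ∧ 0 < q.im) ∧ ‖q‖ < 1 / √3) ∧ q.re < l / 2} := by
    rw [← hT.measure_preimage hm2.nullMeasurableSet]
    congr 1
    ext q
    exact and_congr (and_congr (hmemHC q) (hmemD q)) (hmemB q)
  rw [measureReal_def, measureReal_def, hv1, hv2]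
  by_cases hc1 : 1 ≤ √3 / 2 * l
  · have hempty : {q : ℂ | (‖q‖ * (√3 / 2 * l) < q.re ∧ 0 < q.im) ∧ ‖q‖ < 1 / √3} = ∅ := by
      rw [Set.eq_empty_iff_forall_notMem]
      rintro q ⟨⟨h3, -⟩, -⟩
      have h4 := Complex.re_le_norm q
      have h5 : ‖q‖ ≤ ‖q‖ * (√3 / 2 * l) := le_mul_of_one_le_right (norm_nonneg _) hc1
      linarith
    rw [hempty, measure_empty, ENNReal.toReal_zero, mul_zero]
    exact ENNReal.toReal_nonneg
  push Not at hc1
  set c : ℝ := √3 / 2 * l with hc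
  have hc0 : √3 / 2 ≤ c := by
    rw [hc]
    nlinarith
  have hcpos : 0 < c := by positivity
  set t : ℝ := Real.arccos c with ht
  have hcos : Real.cos t = c := Real.cos_arccos (by linarith) hc1.le
  have ht0 : 0 < t := Real.arccos_pos.2 hc1
  have ht6 : t ≤ π / 6 := by
    have h3 : Real.arccos c ≤ Real.arccos (√3 / 2) := Real.antitone_arccos hc0
    have h4 : Real.arccos (√3 / 2) = π / 6 := by
      rw [← Real.cos_pi_div_six, Real.arccos_cos (by positivity) (by linarith [Real.pi_pos])]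
    rw [h4] at h3
    exact h3
  have hpi := Real.pi_pos
  have hA : {q : ℂ | (‖q‖ * c < q.re ∧ 0 < q.im) ∧ ‖q‖ < 1 / √3} =
      {q : ℂ | ‖q‖ < 1 / √3 ∧ 0 < q.im ∧ ‖q‖ * Real.cos t < q.re} := by
    ext q
    simp only [Set.mem_ofPred_eq, hcos]
    tauto
  have hB : {q : ℂ | ((‖q‖ * c < q.re ∧ 0 < q.im) ∧ ‖q‖ < 1 / √3) ∧ q.re < l / 2} =
      {q : ℂ | 0 < q.im ∧ ‖q‖ * Real.cos t < q.re ∧ q.re < l / 2} := by
    ext q
    simp only [Set.mem_ofPred_eq, hcos]
    constructor
    · rintro ⟨⟨⟨h3, h4⟩, -⟩, h5⟩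
      exact ⟨h4, h3, h5⟩
    · rintro ⟨h4, h3, h5⟩
      refine ⟨⟨⟨h3, h4⟩, ?_⟩, h5⟩
      have h6 : ‖q‖ * c < l / 2 := h3.trans h5
      rw [lt_div_iff₀ hs3]
      rw [hc] at h6
      have h7 : l * (‖q‖ * √3) < l * 1 := by nlinarith
      exact lt_of_mul_lt_mul_left h7 hl0.le
  rw [hA, hB, sector (by positivity) ht0 (by linarith), rtri (by positivity) ht0 (by linarith),
    ENNReal.toReal_ofReal (by positivity)]
  have htan0 : 0 ≤ Real.tan t := Real.tan_nonneg_of_nonneg_of_le_pi_div_two ht0.le (by linarith)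
  rw [ENNReal.toReal_ofReal (by positivity)]
  have h8 : (1 / √3) ^ 2 = 1 / 3 := by
    rw [div_pow, Real.sq_sqrt (by norm_num), one_pow]
  have h9 : (l / 2) ^ 2 * Real.tan t / 2 = Real.sin t * Real.cos t / 6 := by
    have hl2 : (l / 2) ^ 2 = Real.cos t ^ 2 / 3 := by
      rw [hcos, hc]
      have h10 : √3 ^ 2 = 3 := Real.sq_sqrt (by norm_num)
      linear_combination (-(l ^ 2) / 12) * h10
    rw [hl2, Real.tan_eq_sin_div_cos]
    have hcne : Real.cos t ≠ 0 := by rw [hcos]; exact hcpos.ne'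
    field_simp
    ring
  rw [h8, h9]
  have := sin_conc ht0.le ht6
  linarith

end Pool.Agent.H20.AL
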