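import Pool.Agent.H20.AL.HCP
import Pool.Agent.H20.AL.CEL
import Pool.Agent.H20.AL.CNH

/-!
# LCL: the local inequality

At a point `x` of the packing let `C` be a finite set of cones with free boundary rays, `R = {p : p in no cone of C}`.
Then `area (V ∩ D ∩ R) ≥ kap * area (D ∩ R) ≥ √3/2 - kap Σ area (cone ∩ D)`.
Proof.  `N = {y ∈ X : y ≠ x, dist y x ≤ 2}` is finite.  Let `𝓗` be the finite set of pairs `(y, ε)`, `y ∈ N`, `ε = ± 1`, with `HC x y ε`
disjoint from all cones of `C`; the other half caps are contained in some cone (`cone_or`), so they are disjoint from `R`.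
The half caps are pairwise disjoint (`hc_disj`, `hc_disj'`).  Up to the null set of the lines `x y` (`y ∈ N`):
`V ∩ D ∩ R ⊇ (D ∩ R \ ⋃_𝓗 HC) ∪ ⋃_𝓗 (HC ∩ D ∩ {2 dt < ‖y-x‖^2})` (disjoint union; `V_of_not`, `V_of_HC`).
So `area (V∩D∩R) ≥ area (D∩R) - Σ_𝓗 area (HC∩D) + kap Σ_𝓗 area (HC∩D)` (`hcap`) `≥ kap * area (D∩R)`, since `kap ≤ 1` and
`Σ_𝓗 area (HC∩D) ≤ area (D∩R)` (disjoint subsets of `D ∩ R`).  Finally `area (D∩R) ≥ area D - Σ area (cone∩D)`, `D_vol`,
`kap * π/3 = √3/2`.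
(`kap ≤ 1`: `3√3 ≤ 5.2 ≤ 6.28 ≤ 2π`.)
-/

set_option autoImplicit false

open MeasureTheory Set Real

noncomputable section

namespace Pool.Agent.H20.AL

theorem kap_le : kap ≤ 1 := by
  unfold kap
  rw [div_le_one (by positivity)]
  have h1 : √3 ≤ 2 := by
    rw [show (2:ℝ) = √4 by
      rw [show (4:ℝ) = 2 ^ 2 by norm_num, Real.sqrt_sq (by norm_num)]]
    exact Real.sqrt_le_sqrt (by norm_num)
  have h2 := Real.pi_gt_three
  linarith

theorem kap_pi : kap * (π / 3) = √3 / 2 := by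
  unfold kap; field_simp

theorem lcl_fin (x : ℂ) {s : Set ℂ} (hs : s ⊆ D x) : volume s ≠ ⊤ :=
  measure_ne_top_of_subset hs (by unfold D; exact measure_ball_lt_top.ne)

theorem lcl {X : Set ℂ} (hX : Sep X) (hc : X.Countable) {x : ℂ} (hx : x ∈ X) (C : Finset (ℂ × ℂ))
    (hC : ∀ c ∈ C, 0 < cr (c.1 - x) (c.2 - x) ∧ Free X x c.1 ∧ Free X x c.2) :
    √3 / 2 - kap * ∑ c ∈ C, volume.real (Cone x c.1 c.2 ∩ D x) ≤
      volume.real (V X x ∩ D x ∩ {p | ∀ c ∈ C, p ∉ Cone x c.1 c.2}) := by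
  classical
  set R : Set ℂ := {p | ∀ c ∈ C, p ∉ Cone x c.1 c.2} with hR
  -- measurability of `R`
  have hRe : R = (⋃ c ∈ C, Cone x c.1 c.2)ᶜ := by
    ext p; simp [hR]
  have hRm : MeasurableSet R := by
    rw [hRe]
    exact (C.measurableSet_biUnion fun c _ => (isOpen_Cone x c.1 c.2).measurableSet).compl
  have hDm : MeasurableSet (D x) := (isOpen_D x).measurableSet
  -- neighbours
  have hNf : {y | y ∈ X ∧ y ≠ x ∧ dist y x ≤ 2}.Finite :=
    (locfin hX x 2).subset fun y hy => ⟨hy.1, Metric.mem_closedBall.2 hy.2.2⟩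
  set N : Finset ℂ := hNf.toFinset with hN
  have hNmem : ∀ y, y ∈ N ↔ y ∈ X ∧ y ≠ x ∧ dist y x ≤ 2 := fun y => by
    rw [hN, Set.Finite.mem_toFinset]; rfl
  set 𝓗 : Finset (ℂ × ℝ) := (N ×ˢ ({1, -1} : Finset ℝ)).filter
    (fun h => ∀ c ∈ C, Disjoint (HC x h.1 h.2) (Cone x c.1 c.2)) with h𝓗
  have hmem : ∀ h, h ∈ 𝓗 ↔ (h.1 ∈ N ∧ (h.2 = 1 ∨ h.2 = -1)) ∧
      ∀ c ∈ C, Disjoint (HC x h.1 h.2) (Cone x c.1 c.2) := fun h => by
    simp [h𝓗]
  set A : Set ℂ := D x ∩ R with hA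
  set f : ℂ × ℝ → Set ℂ := fun h => HC x h.1 h.2 ∩ D x with hf
  set g : ℂ × ℝ → Set ℂ := fun h => HC x h.1 h.2 ∩ D x ∩
    {p | 2 * dt (p - x) (h.1 - x) < ‖h.1 - x‖ ^ 2} with hg
  set U : Set ℂ := ⋃ h ∈ 𝓗, f h with hU
  set W : Set ℂ := ⋃ h ∈ 𝓗, g h with hW
  set L : Set ℂ := ⋃ y ∈ N, {p : ℂ | cr (y - x) (p - x) = 0} with hL
  have hLn : volume L = 0 := by
    rw [hL]
    refine (measure_biUnion_null_iff (I := (N : Set ℂ)) N.countable_toSet).2 fun y hy => ?_
    exact line_null ((hNmem y).1 hy).2.1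
  have hfm : ∀ h, MeasurableSet (f h) := fun h => (isOpen_HC x h.1 h.2).measurableSet.inter hDm
  have hgm : ∀ h, MeasurableSet (g h) := by
    intro h
    refine (hfm h).inter ?_
    refine IsOpen.measurableSet ?_
    have hcont : Continuous (fun p : ℂ => 2 * dt (p - x) (h.1 - x)) := by
      unfold dt; fun_prop
    exact isOpen_lt hcont continuous_const
  have hdisj : (𝓗 : Set (ℂ × ℝ)).PairwiseDisjoint f := by
    intro a ha b hb hab
    have ha' := (hmem a).1 ha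
    have hb' := (hmem b).1 hb
    have ha'' := (hNmem a.1).1 ha'.1.1
    have hb'' := (hNmem b.1).1 hb'.1.1
    refine Disjoint.mono inter_subset_left inter_subset_left ?_
    by_cases hne : a.1 = b.1
    · have hne2 : a.2 ≠ b.2 := fun h => hab (Prod.ext hne h)
      rw [hne]
      rcases ha'.1.2 with h1 | h1 <;> rcases hb'.1.2 with h2 | h2
      · exact absurd (h1.trans h2.symm) hne2
      · rw [h1, h2]; exact hc_disj' x b.1
      · rw [h1, h2]; exact (hc_disj' x b.1).symm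
      · exact absurd (h1.trans h2.symm) hne2
    · exact hc_disj hX hx ha''.1 hb''.1 ha''.2.1 hb''.2.1 hne a.2 b.2
  have hgf : ∀ h, g h ⊆ f h := fun h => inter_subset_left
  have hdisjg : (𝓗 : Set (ℂ × ℝ)).PairwiseDisjoint g :=
    fun a ha b hb hab => (hdisj ha hb hab).mono (hgf a) (hgf b)
  have hUA : U ⊆ A := by
    intro p hp
    simp only [hU, mem_iUnion] at hp
    obtain ⟨h, hh, hp⟩ := hp
    refine ⟨hp.2, fun c hc' hpc => ?_⟩
    exact Set.disjoint_left.1 (((hmem h).1 hh).2 c hc') hp.1 hpc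
  have hWU : W ⊆ U := by
    intro p hp
    simp only [hW, mem_iUnion] at hp
    obtain ⟨h, hh, hp⟩ := hp
    simp only [hU, mem_iUnion]
    exact ⟨h, hh, hgf h hp⟩
  have hUm : MeasurableSet U := 𝓗.measurableSet_biUnion fun h _ => hfm h
  have hWm : MeasurableSet W := 𝓗.measurableSet_biUnion fun h _ => hgm h
  have hAD : A ⊆ D x := inter_subset_left
  have hsub : ((A \ U) \ L) ∪ W ⊆ V X x ∩ D x ∩ R := by
    rintro p (⟨⟨hpA, hpU⟩, hpL⟩ | hpW)
    · refine ⟨⟨V_of_not hX hx hpA.1 fun y hy hyx hd => ?_, hpA.1⟩, hpA.2⟩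
      have hyN : y ∈ N := (hNmem y).2 ⟨hy, hyx, hd⟩
      have hh : ∀ ε : ℝ, (ε = 1 ∨ ε = -1) → p ∉ HC x y ε := by
        intro ε hε hp
        by_cases hin : (y, ε) ∈ 𝓗
        · apply hpU
          simp only [hU, mem_iUnion]
          exact ⟨(y, ε), hin, hp, hpA.1⟩
        · rw [hmem] at hin
          have h2 : ¬ ∀ c ∈ C, Disjoint (HC x y ε) (Cone x c.1 c.2) := fun h => hin ⟨⟨hyN, hε⟩, h⟩
          push Not at h2
          obtain ⟨c, hcC, hcd⟩ := h2
          obtain ⟨h3, h4, h5⟩ := hC c hcC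
          rcases cone_or h3 h4 h5 hy hyx ε with h6 | h6
          · exact hpA.2 c hcC (h6 hp)
          · exact hcd h6
      refine ⟨hh 1 (Or.inl rfl), hh (-1) (Or.inr rfl), fun h0 => hpL ?_⟩
      simp only [hL, mem_iUnion]
      exact ⟨y, hyN, h0⟩
    · have hpA := hUA (hWU hpW)
      simp only [hW, mem_iUnion] at hpW
      obtain ⟨h, hh, hp⟩ := hpW
      have hh' := (hNmem h.1).1 ((hmem h).1 hh).1.1
      exact ⟨⟨V_of_HC hX hx hh'.1 hh'.2.1 hp.1.1 hp.1.2 hp.2, hpA.1⟩, hpA.2⟩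
  -- volumes
  have hUD : U ⊆ D x := hUA.trans hAD
  have hWD : W ⊆ D x := hWU.trans hUD
  have e1 : volume.real U = ∑ h ∈ 𝓗, volume.real (f h) :=
    measureReal_biUnion_finset hdisj (fun h _ => hfm h)
      (fun h _ => lcl_fin x inter_subset_right)
  have e2 : volume.real W = ∑ h ∈ 𝓗, volume.real (g h) :=
    measureReal_biUnion_finset hdisjg (fun h _ => hgm h)
      (fun h _ => lcl_fin x (inter_subset_left.trans inter_subset_right))
  have e3 : kap * volume.real U ≤ volume.real W := by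
    rw [e1, e2, Finset.mul_sum]
    refine Finset.sum_le_sum fun h hh => ?_
    have hh1 := (hmem h).1 hh
    have hh2 := (hNmem h.1).1 hh1.1.1
    refine hcap x h.1 ?_ h.2 hh1.1.2
    have := hX h.1 hh2.1 x hx hh2.2.1
    rwa [dist_eq_norm] at this
  have e4 : volume.real ((A \ U) \ L) = volume.real A - volume.real U := by
    have h0 : volume.real L = 0 := by simp [Measure.real, hLn]
    rw [measureReal_sdiff_null h0 (by rw [hLn]; simp), measureReal_sdiff hUA hUm (lcl_fin x hAD)]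
  have e5 : volume.real (((A \ U) \ L) ∪ W) = volume.real ((A \ U) \ L) + volume.real W := by
    refine measureReal_union ?_ hWm (lcl_fin x ?_) (lcl_fin x hWD)
    · rw [Set.disjoint_left]
      intro p hp hpW
      exact hp.1.2 (hWU hpW)
    · exact fun p hp => hAD hp.1.1
  have e6 : volume.real (((A \ U) \ L) ∪ W) ≤ volume.real (V X x ∩ D x ∩ R) :=
    measureReal_mono hsub (lcl_fin x fun p hp => hp.1.2)
  have e7 : volume.real U ≤ volume.real A := measureReal_mono hUA (lcl_fin x hAD)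
  have e8 : volume.real (D x) ≤ volume.real A + ∑ c ∈ C, volume.real (Cone x c.1 c.2 ∩ D x) := by
    have h1 : D x ⊆ A ∪ ⋃ c ∈ C, Cone x c.1 c.2 ∩ D x := by
      intro p hp
      by_cases hpR : p ∈ R
      · exact Or.inl ⟨hp, hpR⟩
      · right
        rw [hRe] at hpR
        simp only [mem_compl_iff, not_not, mem_iUnion] at hpR
        obtain ⟨c, hc', hpc⟩ := hpR
        simp only [mem_iUnion]
        exact ⟨c, hc', hpc, hp⟩
    have h2 : A ∪ ⋃ c ∈ C, Cone x c.1 c.2 ∩ D x ⊆ D x := by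
      refine union_subset hAD ?_
      intro p hp
      simp only [mem_iUnion] at hp
      obtain ⟨c, -, hp⟩ := hp
      exact hp.2
    calc volume.real (D x) ≤ volume.real (A ∪ ⋃ c ∈ C, Cone x c.1 c.2 ∩ D x) :=
          measureReal_mono h1 (lcl_fin x h2)
      _ ≤ volume.real A + volume.real (⋃ c ∈ C, Cone x c.1 c.2 ∩ D x) := measureReal_union_le _ _
      _ ≤ _ := by gcongr; exact measureReal_biUnion_finset_le _ _
  rw [D_vol] at e8
  have hk0 := kap_pos
  have hk1 := kap_le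
  have hkp := kap_pi
  have h10 : kap * volume.real A ≤ volume.real (V X x ∩ D x ∩ R) := by
    nlinarith [mul_nonneg (sub_nonneg.2 hk1) (sub_nonneg.2 e7)]
  have h11 := mul_le_mul_of_nonneg_left e8 hk0.le
  rw [mul_add, hkp] at h11
  linarith

end Pool.Agent.H20.AL
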