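import Pool.Agent.H20.AL.Defs

/-!
# SPR: no point is at distance < 1/√3 of two points and ≤ 1/√3 of a third one (mutual distances ≥ 1); caps are disjoint

* `three`: put `A = a - p, B = b - p, C = c - p`: `|A-B|^2 ≥ 1`, `|A|^2 ≤ 1/3`, `|B|^2, |C|^2 < 1/3` give `2 A.B ≤ |A|^2+|B|^2 - 1`, etc.; so
  `|A+B+C|^2 = Σ|.|^2 + 2 Σ A.B ≤ 3 (|A|^2+|B|^2+|C|^2) - 3 < 0`: contradiction.
* `dir_cap`: `‖q‖ > 0`, `√3/2 ‖q‖ ‖w‖^2 < q.w`; put `q' = q/(√3 ‖q‖)` (norm `1/√3`): `‖q' - w‖^2 = 1/3 - 2 q'.w + ‖w‖^2 < 1/3`.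
* `hc_disj`: `p` in the cones of `y ≠ y'`: `p ≠ x`; `three` at the point `x + (p - x)/(√3 ‖p - x‖)` with `x, y, y'`.
* `hc_disj'`: `cr > 0` and `cr < 0`.
* `free_X`: `a ∈ X`, `u = a - x`, `‖u‖ ≤ √3`.  If `y ≠ a` and `√3/2 ‖u‖ ‖w‖^2 < u.w` (`w = y - x`) put `τ = 1/(√3 ‖u‖) ∈ (0,1)`,
  `‖τ u - w‖^2 < 1/3` by `dir_cap`, but (Stewart) `‖τ u - w‖^2 = (1-τ)‖w‖^2 + τ ‖w - u‖^2 - τ(1-τ)‖u‖^2 ≥ 1 - τ(1-τ)‖u‖^2
  = 1 - ‖u‖/√3 + 1/3 ≥ 1/3`: contradiction.  So `y = a` and `cr = 0`.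
* `locfin`: a separated set has finitely many points in a bounded set (total boundedness, balls of radius 1/2).
-/

set_option autoImplicit false

open MeasureTheory Set Real

noncomputable section

namespace Pool.Agent.H20.AL

theorem SPR_s3 : (0:ℝ) < √3 := Real.sqrt_pos.mpr (by norm_num)

theorem SPR_sq3 : (√3 : ℝ) ^ 2 = 3 := Real.sq_sqrt (by norm_num)

theorem SPR_r2 : (1 / √3 : ℝ) ^ 2 = 1 / 3 := by
  rw [div_pow, SPR_sq3, one_pow]

theorem SPR_rpos : (0:ℝ) < 1 / √3 := div_pos one_pos SPR_s3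

theorem SPR_dsq (a b : ℂ) : dist a b ^ 2 = (a.re - b.re) ^ 2 + (a.im - b.im) ^ 2 := by
  rw [dist_eq_norm, nsq, Complex.sub_re, Complex.sub_im]

theorem three {a b c p : ℂ} (hab : 1 ≤ dist a b) (hbc : 1 ≤ dist b c) (hac : 1 ≤ dist a c)
    (ha : dist p a ≤ 1 / √3) (hb : dist p b < 1 / √3) (hc : dist p c < 1 / √3) : False := by
  have h1 : (1:ℝ) ≤ dist a b ^ 2 := by nlinarith
  have h2 : (1:ℝ) ≤ dist b c ^ 2 := by nlinarith
  have h3 : (1:ℝ) ≤ dist a c ^ 2 := by nlinarith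
  have h4 : dist p a ^ 2 ≤ 1 / 3 := by
    rw [← SPR_r2]
    exact pow_le_pow_left₀ dist_nonneg ha 2
  have h5 : dist p b ^ 2 < 1 / 3 := by
    rw [← SPR_r2]
    exact pow_lt_pow_left₀ hb dist_nonneg two_ne_zero
  have h6 : dist p c ^ 2 < 1 / 3 := by
    rw [← SPR_r2]
    exact pow_lt_pow_left₀ hc dist_nonneg two_ne_zero
  rw [SPR_dsq] at h1 h2 h3 h4 h5 h6
  nlinarith [sq_nonneg (a.re + b.re + c.re - 3 * p.re), sq_nonneg (a.im + b.im + c.im - 3 * p.im)]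

theorem SPR_tsub (t : ℝ) (q w : ℂ) :
    ‖((t : ℝ) : ℂ) * q - w‖ ^ 2 = t ^ 2 * ‖q‖ ^ 2 - 2 * t * dt q w + ‖w‖ ^ 2 := by
  rw [nsq, nsq, nsq]
  simp only [dt, Complex.sub_re, Complex.sub_im, Complex.mul_re, Complex.mul_im, Complex.ofReal_re,
    Complex.ofReal_im]
  ring

theorem dir_cap {q w : ℂ} (hq : q ≠ 0) (h : √3 / 2 * ‖q‖ * ‖w‖ ^ 2 < dt q w) :
    ‖((1 / (√3 * ‖q‖) : ℝ) : ℂ) * q - w‖ < 1 / √3 := by
  have hs := SPR_s3
  have hs2 := SPR_sq3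
  have hqn : 0 < ‖q‖ := norm_pos_iff.mpr hq
  refine lt_of_pow_lt_pow_left₀ 2 SPR_rpos.le ?_
  rw [SPR_tsub, SPR_r2]
  have e1 : (1 / (√3 * ‖q‖)) ^ 2 * ‖q‖ ^ 2 = 1 / 3 := by
    rw [div_pow, mul_pow, hs2]
    field_simp
  have e2 : ‖w‖ ^ 2 < 2 * (1 / (√3 * ‖q‖)) * dt q w := by
    have h1 : 2 * (1 / (√3 * ‖q‖)) * dt q w = (dt q w) / (√3 / 2 * ‖q‖) := by
      field_simp
    rw [h1, lt_div_iff₀ (by positivity)]
    linarith
  rw [e1]
  linarith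

theorem SPR_cap {X : Set ℂ} (hX : Sep X) {x y y' p : ℂ} (hx : x ∈ X) (hy : y ∈ X) (hy' : y' ∈ X)
    (hxy : y ≠ x) (hxy' : y' ≠ x) (hne : y ≠ y')
    (h1 : √3 / 2 * ‖p - x‖ * ‖y - x‖ ^ 2 < dt (p - x) (y - x))
    (h2 : √3 / 2 * ‖p - x‖ * ‖y' - x‖ ^ 2 < dt (p - x) (y' - x)) : False := by
  have hp : p - x ≠ 0 := by
    intro h0
    rw [h0] at h1
    simp [dt] at h1
  have hpn : 0 < ‖p - x‖ := norm_pos_iff.mpr hp
  have c1 := dir_cap hp h1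
  have c2 := dir_cap hp h2
  have hs := SPR_s3
  set t : ℝ := 1 / (√3 * ‖p - x‖) with ht
  have htpos : 0 < t := by positivity
  refine three (a := x) (b := y) (c := y') (p := x + (t : ℂ) * (p - x)) (hX x hx y hy hxy.symm)
    (hX y hy y' hy' hne) (hX x hx y' hy' hxy'.symm) ?_ ?_ ?_
  · rw [dist_eq_norm, add_sub_cancel_left, norm_mul, Complex.norm_real, Real.norm_of_nonneg htpos.le]
    refine le_of_eq ?_
    rw [ht]
    field_simp
  · rw [dist_eq_norm]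
    have e : x + (t : ℂ) * (p - x) - y = (t : ℂ) * (p - x) - (y - x) := by ring
    rw [e]
    exact c1
  · rw [dist_eq_norm]
    have e : x + (t : ℂ) * (p - x) - y' = (t : ℂ) * (p - x) - (y' - x) := by ring
    rw [e]
    exact c2

theorem hc_disj {X : Set ℂ} (hX : Sep X) {x y y' : ℂ} (hx : x ∈ X) (hy : y ∈ X) (hy' : y' ∈ X)
    (hxy : y ≠ x) (hxy' : y' ≠ x) (hne : y ≠ y') (ε ε' : ℝ) : Disjoint (HC x y ε) (HC x y' ε') := by
  rw [Set.disjoint_left]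
  intro p hp hp'
  exact SPR_cap hX hx hy hy' hxy hxy' hne hp.1 hp'.1

theorem hc_disj' (x y : ℂ) : Disjoint (HC x y 1) (HC x y (-1)) := by
  rw [Set.disjoint_left]
  intro p hp hp'
  have h1 := hp.2
  have h2 := hp'.2
  linarith

theorem free_X {X : Set ℂ} (hX : Sep X) {x a : ℂ} (hx : x ∈ X) (ha : a ∈ X) (hne : a ≠ x)
    (hd : dist a x ≤ √3) : Free X x a := by
  intro y hy hyx h
  by_cases hya : y = a
  · rw [hya, cr_self]
  · exfalso
    have hs := SPR_s3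
    have hs2 := SPR_sq3
    have hu : a - x ≠ 0 := sub_ne_zero.mpr hne
    have hun : 0 < ‖a - x‖ := norm_pos_iff.mpr hu
    have c1 := dir_cap hu h
    have hu1 : 1 ≤ ‖a - x‖ := by
      rw [← dist_eq_norm]
      exact hX a ha x hx hne
    have hu3 : ‖a - x‖ ≤ √3 := by
      rw [← dist_eq_norm]
      exact hd
    have hw1 : 1 ≤ ‖y - x‖ := by
      rw [← dist_eq_norm]
      exact hX y hy x hx hyx
    have hwu : 1 ≤ ‖y - a‖ := by
      rw [← dist_eq_norm]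
      exact hX y hy a ha hya
    have hwu2 : (1:ℝ) ≤ ‖y - a‖ ^ 2 := by nlinarith
    have hw2 : (1:ℝ) ≤ ‖y - x‖ ^ 2 := by nlinarith
    have hst : ‖y - a‖ ^ 2 = ‖a - x‖ ^ 2 - 2 * dt (a - x) (y - x) + ‖y - x‖ ^ 2 := by
      rw [nsq, nsq, nsq]
      simp [dt]
      ring
    have c2 : ‖((1 / (√3 * ‖a - x‖) : ℝ) : ℂ) * (a - x) - (y - x)‖ ^ 2 < 1 / 3 := by
      rw [← SPR_r2]
      exact pow_lt_pow_left₀ c1 (norm_nonneg _) two_ne_zero
    rw [SPR_tsub] at c2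
    set u : ℝ := ‖a - x‖ with hudef
    set t : ℝ := 1 / (√3 * u) with ht
    have htpos : 0 < t := by positivity
    have e1 : t ^ 2 * u ^ 2 = 1 / 3 := by
      rw [ht, div_pow, mul_pow, hs2]
      field_simp
    have e2 : t * (√3 * u) = 1 := by
      rw [ht]
      field_simp
    have hs1 : (1:ℝ) < √3 := by nlinarith
    have ht1 : t < 1 := by
      by_contra hcon
      push Not at hcon
      have : 1 < √3 * u := by nlinarith
      nlinarith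
    have e3 : t * u ^ 2 ≤ 1 := by
      have h3 : t * u ^ 2 * √3 = u := by
        have : t * u ^ 2 * √3 = (t * (√3 * u)) * u := by ring
        rw [this, e2, one_mul]
      have h4 : t * u ^ 2 * √3 ≤ 1 * √3 := by rw [h3, one_mul]; exact hu3
      exact le_of_mul_le_mul_right h4 hs
    have key : (1 - t) * 1 + t * 1 - t * u ^ 2 + t ^ 2 * u ^ 2
        ≤ t ^ 2 * u ^ 2 - 2 * t * dt (a - x) (y - x) + ‖y - x‖ ^ 2 := by
      have k1 : 2 * dt (a - x) (y - x) = u ^ 2 + ‖y - x‖ ^ 2 - ‖y - a‖ ^ 2 := by linarith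
      have k2 : 2 * t * dt (a - x) (y - x) = t * (u ^ 2 + ‖y - x‖ ^ 2 - ‖y - a‖ ^ 2) := by
        rw [← k1]; ring
      rw [k2]
      nlinarith [mul_nonneg htpos.le (sub_nonneg.mpr hwu2),
        mul_nonneg (sub_nonneg.mpr ht1.le) (sub_nonneg.mpr hw2)]
    linarith

theorem locfin {X : Set ℂ} (hX : Sep X) (O : ℂ) (R : ℝ) : (X ∩ Metric.closedBall O R).Finite := by
  obtain ⟨t, _, htf, htc⟩ :=
    (isCompact_closedBall O R).finite_cover_balls (show (0:ℝ) < 1 / 2 by norm_num)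
  have hch : ∀ p : ℂ, p ∈ X ∩ Metric.closedBall O R → ∃ c ∈ t, dist p c < 1 / 2 := by
    intro p hp
    obtain ⟨c, hc, hpc⟩ := Set.mem_iUnion₂.mp (htc hp.2)
    exact ⟨c, hc, hpc⟩
  classical
  let f : ℂ → ℂ := fun p => if h : p ∈ X ∩ Metric.closedBall O R then (hch p h).choose else 0
  have hf : ∀ p (h : p ∈ X ∩ Metric.closedBall O R), f p ∈ t ∧ dist p (f p) < 1 / 2 := by
    intro p h
    have h1 := (hch p h).choose_spec
    simp only [f, dif_pos h]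
    exact h1
  refine Set.Finite.of_injOn (f := f) (fun p hp => (hf p hp).1) ?_ htf
  intro p hp q hq hpq
  by_contra hne
  have h1 := (hf p hp).2
  have h2 := (hf q hq).2
  have h3 := hX p hp.1 q hq.1 hne
  have h4 : dist p q ≤ dist p (f p) + dist (f p) q := dist_triangle _ _ _
  rw [hpq, dist_comm (f q) q] at h4
  rw [hpq] at h1
  linarith

end Pool.Agent.H20.AL
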